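import Mathlib

/-!
Project RL (helper64), row MP_0aec2a_ag: the dual variety of a reciprocal linear space is a
hypersurface of degree `2^d β`. Definitions and statements of the lemma jobs.
-/

set_option autoImplicit false

open Finset MvPolynomial

namespace Pool.Agent.Q64.RL

/-! ### Linear spaces and their matroids -/

section Lin

variable {k : Type} [Field k] {ι : Type} [Fintype ι] [DecidableEq ι]

/-- The rank of `S`: the dimension of the restriction of `L` to the coordinates in `S`. -/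
noncomputable def rk (L : Submodule k (ι → k)) (S : Finset ι) : ℕ :=
  Module.finrank k (L.map (LinearMap.funLeft k k (Subtype.val : {i // i ∈ S} → ι)))

/-- The beta invariant. -/
noncomputable def beta (L : Submodule k (ι → k)) : ℤ :=
  (-1) ^ rk L univ * ∑ S : Finset ι, (-1) ^ S.card * (rk L S : ℤ)

/-- The matroid of `L` is connected (and not a single loop). -/
def Conn (L : Submodule k (ι → k)) : Prop :=
  L ≠ ⊥ ∧ ∀ S : Finset ι, S.Nonempty → Sᶜ.Nonempty → rk L S + rk L Sᶜ ≠ rk L univ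

/-- Deletion: forget the coordinate `e`. -/
def del (L : Submodule k (ι → k)) (e : ι) : Submodule k ({i // i ≠ e} → k) :=
  L.map (LinearMap.funLeft k k (Subtype.val : {i // i ≠ e} → ι))

/-- Contraction: the vectors with `e`-th coordinate `0`, without this coordinate. -/
def con (L : Submodule k (ι → k)) (e : ι) : Submodule k ({i // i ≠ e} → k) :=
  (L ⊓ LinearMap.ker (LinearMap.proj e : (ι → k) →ₗ[k] k)).map
    (LinearMap.funLeft k k (Subtype.val : {i // i ≠ e} → ι))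

/-- No coordinate vanishes on `L`, and no coordinate vector lies in `L` (no loops, no coloops). -/
def NL (L : Submodule k (ι → k)) : Prop :=
  (∀ i, ∃ v ∈ L, v i ≠ 0) ∧ ∀ i, (Pi.single i 1 : ι → k) ∉ L

/-- `B` is a basis of the matroid of `L`: the restriction of `L` to `B` is bijective. -/
def Base (L : Submodule k (ι → k)) (B : Finset ι) : Prop :=
  (∀ v ∈ L, (∀ i ∈ B, v i = 0) → v = 0) ∧ ∀ u : ι → k, ∃ v ∈ L, ∀ i ∈ B, v i = u i

/-- The vector `x` over the extension field `E` satisfies the linear relations of `L`. -/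
def InL (L : Submodule k (ι → k)) {E : Type} [Field E] [Algebra k E] (x : ι → E) : Prop :=
  ∀ a : ι → k, (∀ v ∈ L, ∑ i, v i * a i = 0) → ∑ i, algebraMap k E (a i) * x i = 0

/-- The vector `w` over the extension field `E` is orthogonal to `L`. -/
def InP (L : Submodule k (ι → k)) {E : Type} [Field E] [Algebra k E] (w : ι → E) : Prop :=
  ∀ v ∈ L, ∑ i, algebraMap k E (v i) * w i = 0

/-- `(x, w)` is a generic point of `{x ∈ L, x o = 1} × L^⊥`, and `E` its function field. -/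
structure Gen (L : Submodule k (ι → k)) (o : ι) {E : Type} [Field E] [Algebra k E]
    (x w : ι → E) : Prop where
  xo : x o = 1
  hx : InL L x
  hw : InP L w
  gen : IntermediateField.adjoin k (Set.range x ∪ Set.range w) = ⊤
  td : ∃ t : {i // i ≠ o} → E, AlgebraicIndependent k t

/-- The coordinates `y i = x i ^ 2 * w i`, `i ≠ o`, are algebraically independent. -/
def Good (k : Type) [Field k] (o : ι) {E : Type} [Field E] [Algebra k E] (x w : ι → E) : Prop :=
  AlgebraicIndependent k (fun i : {i // i ≠ o} => x i ^ 2 * w i)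

/-- The degree of `E` over the field generated by the `y i`, `i ≠ o`. -/
noncomputable def dg (k : Type) [Field k] (o : ι) {E : Type} [Field E] [Algebra k E]
    (x w : ι → E) : ℕ :=
  Module.finrank
    (IntermediateField.adjoin k (Set.range fun i : {i // i ≠ o} => x i ^ 2 * w i)) E

/-- For all generic points the degree is `N` (`N = 0`: not algebraically independent). -/
def HasN (L : Submodule k (ι → k)) (o : ι) (N : ℕ) : Prop :=
  ∀ (E : Type) [Field E] [Algebra k E] (x w : ι → E), Gen L o x w →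
    (N = 0 → ¬ Good k o x w) ∧ (N ≠ 0 → Good k o x w ∧ dg k o x w = N)

end Lin

/-! ### Places -/

section Plc

/-- A valuation which is trivial on `k`. -/
def Triv (k : Type) [Field k] {E Γ : Type} [Field E] [Algebra k E]
    [LinearOrderedCommGroupWithZero Γ] (v : Valuation E Γ) : Prop :=
  ∀ c : k, c ≠ 0 → v (algebraMap k E c) = 1

/-- The elements `y j`, `j ∈ s`, have algebraically independent residues. -/
def RInd (k : Type) [Field k] {E Γ : Type} [Field E] [Algebra k E]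
    [LinearOrderedCommGroupWithZero Γ] (v : Valuation E Γ) {J : Type} (y : J → E) (s : Set J) :
    Prop :=
  ∀ G : MvPolynomial s k, G ≠ 0 → v (aeval (fun j : s => y j) G) = 1

/-- `ρ` is the residue map of the valuation `v`, onto the field `κ`. -/
structure Place (k : Type) [Field k] {E Γ κ : Type} [Field E] [Algebra k E]
    [LinearOrderedCommGroupWithZero Γ] [Field κ] [Algebra k κ] (v : Valuation E Γ) (ρ : E → κ) :
    Prop where
  triv : Triv k v
  add : ∀ a b, v a ≤ 1 → v b ≤ 1 → ρ (a + b) = ρ a + ρ b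
  mul : ∀ a b, v a ≤ 1 → v b ≤ 1 → ρ (a * b) = ρ a * ρ b
  alg : ∀ c : k, ρ (algebraMap k E c) = algebraMap k κ c
  zero : ∀ a, v a ≤ 1 → (ρ a = 0 ↔ v a < 1)
  surj : ∀ c : κ, ∃ a, v a ≤ 1 ∧ ρ a = c

end Plc

open WithZero

/-- PLC (a): every valuation trivial on `k` has a residue map. -/
def S_plc : Prop := ∀ (k E Γ : Type) [Field k] [Field E] [Algebra k E]
  [LinearOrderedCommGroupWithZero Γ] (v : Valuation E Γ), Triv k v →
  ∃ (κ : Type) (_ : Field κ) (_ : Algebra k κ) (ρ : E → κ), Place k v ρ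

/-- PLC (b): residues of polynomials. -/
def S_plb : Prop := ∀ (k E Γ κ : Type) [Field k] [Field E] [Algebra k E]
  [LinearOrderedCommGroupWithZero Γ] [Field κ] [Algebra k κ] (v : Valuation E Γ) (ρ : E → κ),
  Place k v ρ → ∀ (J : Type) (y : J → E), (∀ j, v (y j) ≤ 1) →
    (∀ G : MvPolynomial J k, v (aeval y G) ≤ 1 ∧ ρ (aeval y G) = aeval (fun j => ρ (y j)) G) ∧
    ∀ s : Set J, RInd k v y s ↔ AlgebraicIndependent k (fun j : s => ρ (y j))

/-- TRD: transcendence degree. -/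
def S_trd : Prop := ∀ (k E : Type) [Field k] [Field E] [Algebra k E] (J J' : Type) [Fintype J]
  [Fintype J'] (s : J → E) (t : J' → E),
  IntermediateField.adjoin k (Set.range s) = ⊤ → AlgebraicIndependent k t →
    Fintype.card J' ≤ Fintype.card J ∧
    (Fintype.card J' = Fintype.card J → AlgebraicIndependent k s ∧
      FiniteDimensional (IntermediateField.adjoin k (Set.range t)) E)

/-- LIN: linear algebra. -/
def S_perp : Prop := ∀ (k ι : Type) [Field k] [Fintype ι] [DecidableEq ι]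
  (L : Submodule k (ι → k)),
  -- the double orthogonal
  (∀ v : ι → k, (∀ a : ι → k, (∀ u ∈ L, ∑ i, u i * a i = 0) → ∑ i, v i * a i = 0) → v ∈ L) ∧
  -- linear dependence of coordinates on `L`
  (∀ (F : Finset ι) (e : ι), (∀ v ∈ L, (∀ i ∈ F, v i = 0) → v e = 0) →
    ∃ c : ι → k, ∀ v ∈ L, v e = ∑ i ∈ F, c i * v i) ∧
  -- the relations of a deletion extended by 0 are relations
  (∀ (e : ι) (a : {i // i ≠ e} → k), (∀ u ∈ del L e, ∑ i, u i * a i = 0) →
    ∀ v ∈ L, ∑ i, v i * (if h : i ≠ e then a ⟨i, h⟩ else 0) = 0) ∧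
  -- the relations of a contraction are restrictions of relations
  (∀ (e : ι) (a : {i // i ≠ e} → k), (∀ u ∈ con L e, ∑ i, u i * a i = 0) →
    ∃ c : k, ∀ v ∈ L, ∑ i, v i * (if h : i ≠ e then a ⟨i, h⟩ else c) = 0)

/-- BAS: bases. -/
def S_bas : Prop := ∀ (k ι : Type) [Field k] [Fintype ι] [DecidableEq ι]
  (L : Submodule k (ι → k)) (o : ι), (∃ v ∈ L, v o ≠ 0) →
  (∃ B, Base L B ∧ o ∈ B) ∧
  (∀ e, e ≠ o → (Pi.single e 1 : ι → k) ∉ L → ∃ B, Base L B ∧ o ∈ B ∧ e ∉ B) ∧
  (∀ e, (∃ v ∈ L, v o = 0 ∧ v e ≠ 0) → ∃ B, Base L B ∧ o ∈ B ∧ e ∈ B)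

/-- COO: coordinates. If `B` is a basis, the other coordinates of `L` and the coordinates in `B`
of the orthogonal space are linear functions of the coordinates `v i`, `i ∈ B`, resp. `w j`,
`j ∉ B`, with the matrix `c`, resp. its negative transpose; and conversely. -/
def S_coo : Prop := ∀ (k ι : Type) [Field k] [Fintype ι] [DecidableEq ι]
  (L : Submodule k (ι → k)) (B : Finset ι), Base L B → ∃ c : ι → ι → k,
  ∀ (E : Type) [Field E] [Algebra k E] (x w : ι → E),
    (InL L x ↔ ∀ j ∉ B, x j = ∑ i ∈ B, algebraMap k E (c j i) * x i) ∧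
    (InP L w ↔ ∀ i ∈ B, w i = - ∑ j ∈ Bᶜ, algebraMap k E (c j i) * w j)

/-- the coordinate family of a basis -/
def zf {ι E : Type} [DecidableEq ι] (B : Finset ι) (x w : ι → E) (i : ι) : E :=
  if i ∈ B then x i else w i

/-- ZFA: the coordinate family of a generic point is algebraically independent. -/
def S_zfa : Prop := ∀ (k ι E : Type) [Field k] [Fintype ι] [DecidableEq ι] [Field E] [Algebra k E]
  (L : Submodule k (ι → k)) (B : Finset ι) (o : ι) (x w : ι → E), Base L B → o ∈ B →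
  Gen L o x w →
    AlgebraicIndependent k (fun i : {i // i ≠ o} => zf B x w i) ∧
    IntermediateField.adjoin k (Set.range fun i : {i // i ≠ o} => zf B x w i) = ⊤

/-- MOD: generic points exist. -/
def S_mod : Prop := ∀ (k ι : Type) [Field k] [Fintype ι] [DecidableEq ι]
  (L : Submodule k (ι → k)) (o : ι), (∃ v ∈ L, v o ≠ 0) →
  ∃ (E : Type) (_ : Field E) (_ : Algebra k E) (x w : ι → E), Gen L o x w

/-- POL: the image of `V × V^⊥` under `(x, w) ↦ x^2 w` lies in a hypersurface. -/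
def S_pol : Prop := ∀ (k G : Type) [Field k] [Fintype G] [DecidableEq G] [Nonempty G]
  (V : Submodule k (G → k)), ∃ Q : MvPolynomial G k, Q ≠ 0 ∧
  ∀ (κ : Type) [Field κ] [Algebra k κ] (x w : G → κ), InL V x → InP V w →
    aeval (fun i => x i ^ 2 * w i) Q = 0

/-- FLT: classification of places over `y e = 0`. -/
def S_flt : Prop := ∀ (k ι E Γ : Type) [Field k] [Fintype ι] [DecidableEq ι] [Field E]
  [Algebra k E] [LinearOrderedCommGroupWithZero Γ] (L : Submodule k (ι → k)) (o e : ι)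
  (x w : ι → E) (v : Valuation E Γ), e ≠ o → (Pi.single e 1 : ι → k) ∉ L →
  x o = 1 → InL L x → InP L w → Triv k v →
  RInd k v (fun i => x i ^ 2 * w i) {i | i ≠ o ∧ i ≠ e} →
  v (x e ^ 2 * w e) < 1 → v (w o) ≤ 1 →
  (∀ i, i ≠ e → v (x i) = 1) ∧ v (x e) ≤ 1

/-- INT: `y o` is integral. -/
def S_int : Prop := ∀ (k ι E Γ : Type) [Field k] [Fintype ι] [DecidableEq ι] [Field E]
  [Algebra k E] [LinearOrderedCommGroupWithZero Γ] (L : Submodule k (ι → k)) (o : ι)
  (x w : ι → E) (v : Valuation E Γ), x o ≠ 0 → InL L x → InP L w → Triv k v →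
  (∀ i, i ≠ o → v (x i ^ 2 * w i) ≤ 1) → v (x o ^ 2 * w o) ≤ 1

/-- RES: valuations of a purely transcendental field at a coordinate. -/
def S_res : Prop := ∀ (k E J : Type) [Field k] [Field E] [Algebra k E] [Fintype J]
  [DecidableEq J] (z : J → E) (e : J), AlgebraicIndependent k z →
  IntermediateField.adjoin k (Set.range z) = ⊤ →
  ∀ v : Valuation E ℤᵐ⁰, Triv k v → v (z e) < 1 → RInd k v z {j | j ≠ e} →
    (∀ a, a ≠ 0 → ∃ m : ℤ, v a = v (z e) ^ m) ∧
    (∀ a, v a ≤ 1 →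
      ∃ b ∈ IntermediateField.adjoin k (z '' {j | j ≠ e}), v (a - b) < 1) ∧
    (Function.Surjective v → v (z e) = exp (-1)) ∧
    (∀ v' : Valuation E ℤᵐ⁰, Triv k v' → v' (z e) = v (z e) → RInd k v' z {j | j ≠ e} → v' = v)

/-- EXV: existence of such valuations. -/
def S_exv : Prop := ∀ (k E J : Type) [Field k] [Field E] [Algebra k E] [Fintype J]
  [DecidableEq J] (z : J → E) (e : J), AlgebraicIndependent k z →
  IntermediateField.adjoin k (Set.range z) = ⊤ →
  ∃ v : Valuation E ℤᵐ⁰, Function.Surjective v ∧ Triv k v ∧ v (z e) = exp (-1) ∧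
    RInd k v z {j | j ≠ e}

/-- GDI: algebraic independence from a place. -/
def S_gdi : Prop := ∀ (k E J : Type) [Field k] [Field E] [Algebra k E] [Fintype J]
  [DecidableEq J] (y : J → E) (e : J) (v : Valuation E ℤᵐ⁰), Triv k v → y e ≠ 0 →
  v (y e) < 1 → RInd k v y {j | j ≠ e} → AlgebraicIndependent k y

/-- DED: the fundamental equality for the places over `y e = 0`. -/
def S_ded : Prop := ∀ (k E J : Type) [Field k] [CharZero k] [Field E] [Algebra k E] [Fintype J]
  [DecidableEq J] (y : J → E) (e : J), AlgebraicIndependent k y →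
  FiniteDimensional (IntermediateField.adjoin k (Set.range y)) E →
  ∃ (T : Finset (Valuation E ℤᵐ⁰)) (r f : Valuation E ℤᵐ⁰ → ℕ),
    (∀ v, v ∈ T ↔ Function.Surjective v ∧ Triv k v ∧ v (y e) < 1 ∧ RInd k v y {j | j ≠ e}) ∧
    (∀ v ∈ T, v (y e) = exp (-(r v : ℤ))) ∧
    (∀ v ∈ T, ∀ (κ : Type) [Field κ] [Algebra k κ] (ρ : E → κ), Place k v ρ →
      f v = Module.finrank
        (IntermediateField.adjoin k ((fun j => ρ (y j)) '' {j | j ≠ e})) κ) ∧
    Module.finrank (IntermediateField.adjoin k (Set.range y)) E = ∑ v ∈ T, r v * f v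

/-- Places of type A (over the deletion) and B (over the contraction). -/
structure TypeA (k : Type) [Field k] {ι : Type} (o e : ι) {E : Type} [Field E] [Algebra k E]
    (x w : ι → E) (v : Valuation E ℤᵐ⁰) : Prop where
  surj : Function.Surjective v
  triv : Triv k v
  x1 : ∀ i, v (x i) = 1
  w1 : ∀ i, v (w i) ≤ 1
  we : v (w e) < 1
  ri : RInd k v (fun i => x i ^ 2 * w i) {i | i ≠ o ∧ i ≠ e}

structure TypeB (k : Type) [Field k] {ι : Type} (o e : ι) {E : Type} [Field E] [Algebra k E]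
    (x w : ι → E) (v : Valuation E ℤᵐ⁰) : Prop where
  surj : Function.Surjective v
  triv : Triv k v
  x1 : ∀ i, i ≠ e → v (x i) = 1
  xe : v (x e) < 1
  w1 : ∀ i, v (w i) ≤ 1
  ri : RInd k v (fun i => x i ^ 2 * w i) {i | i ≠ o ∧ i ≠ e}

/-- TYA: places of type A. -/
def S_tya : Prop := ∀ (k ι E : Type) [Field k] [Fintype ι] [DecidableEq ι] [Field E]
  [Algebra k E] (L : Submodule k (ι → k)) (o e : ι) (x w : ι → E) (he : e ≠ o), NL L →
  Gen L o x w →
  (∀ v, TypeA k o e x w v → v (w e) = exp (-1) ∧ (∀ v', TypeA k o e x w v' → v' = v) ∧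
    ∀ (κ : Type) [Field κ] [Algebra k κ] (ρ : E → κ), Place k v ρ →
      Gen (del L e) ⟨o, he.symm⟩ (fun i => ρ (x i)) (fun i => ρ (w i)) ∧
      Good k (⟨o, he.symm⟩ : {i // i ≠ e}) (fun i => ρ (x i)) (fun i => ρ (w i))) ∧
  ∃ v : Valuation E ℤᵐ⁰, Function.Surjective v ∧ Triv k v ∧ (∀ i, v (x i) = 1) ∧
    (∀ i, v (w i) ≤ 1) ∧ v (w e) < 1 ∧
    ∀ (κ : Type) [Field κ] [Algebra k κ] (ρ : E → κ), Place k v ρ →
      Gen (del L e) ⟨o, he.symm⟩ (fun i => ρ (x i)) (fun i => ρ (w i)) ∧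
      (Good k (⟨o, he.symm⟩ : {i // i ≠ e}) (fun i => ρ (x i)) (fun i => ρ (w i)) →
        TypeA k o e x w v)

/-- TYB: places of type B. -/
def S_tyb : Prop := ∀ (k ι E : Type) [Field k] [Fintype ι] [DecidableEq ι] [Field E]
  [Algebra k E] (L : Submodule k (ι → k)) (o e : ι) (x w : ι → E) (he : e ≠ o), NL L →
  Gen L o x w →
  (∀ v, TypeB k o e x w v → (∃ u ∈ L, u o = 0 ∧ u e ≠ 0) ∧
    v (x e) = exp (-1) ∧ v (w e) = 1 ∧ (∀ v', TypeB k o e x w v' → v' = v) ∧
    ∀ (κ : Type) [Field κ] [Algebra k κ] (ρ : E → κ), Place k v ρ →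
      Gen (con L e) ⟨o, he.symm⟩ (fun i => ρ (x i)) (fun i => ρ (w i)) ∧
      Good k (⟨o, he.symm⟩ : {i // i ≠ e}) (fun i => ρ (x i)) (fun i => ρ (w i))) ∧
  ((∀ i, i ≠ e → ∃ u ∈ L, u e = 0 ∧ u i ≠ 0) →
    ∃ v : Valuation E ℤᵐ⁰, Function.Surjective v ∧ Triv k v ∧ (∀ i, i ≠ e → v (x i) = 1) ∧
    v (x e) < 1 ∧ (∀ i, v (w i) ≤ 1) ∧
    ∀ (κ : Type) [Field κ] [Algebra k κ] (ρ : E → κ), Place k v ρ →
      Gen (con L e) ⟨o, he.symm⟩ (fun i => ρ (x i)) (fun i => ρ (w i)) ∧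
      (Good k (⟨o, he.symm⟩ : {i // i ≠ e}) (fun i => ρ (x i)) (fun i => ρ (w i)) →
        TypeB k o e x w v))

/-- STP: the inductive step. -/
def S_stp : Prop := ∀ (k ι : Type) [Field k] [CharZero k] [Fintype ι] [DecidableEq ι]
  (L : Submodule k (ι → k)) (o e : ι) (he : e ≠ o) (A B : ℕ), NL L →
  HasN (del L e) ⟨o, he.symm⟩ A → HasN (con L e) ⟨o, he.symm⟩ B →
  ((¬ ∃ u ∈ L, u o = 0 ∧ u e ≠ 0) → B = 0) → HasN L o (A + 2 * B)

/-- DIS: disconnected matroids. -/
def S_dis : Prop := ∀ (k ι : Type) [Field k] [Fintype ι] [DecidableEq ι]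
  (L : Submodule k (ι → k)) (o : ι), ¬ Conn L → HasN L o 0

/-- RKF: properties of the rank function. -/
def S_rkf : Prop := ∀ (k ι : Type) [Field k] [Fintype ι] [DecidableEq ι]
  (L : Submodule k (ι → k)),
  rk L ∅ = 0 ∧ rk L univ = Module.finrank k L ∧
  (∀ S T, S ⊆ T → rk L S ≤ rk L T) ∧
  (∀ S T, rk L (S ∩ T) + rk L (S ∪ T) ≤ rk L S + rk L T) ∧
  (∀ e, rk L {e} ≤ 1 ∧ (rk L {e} = 0 ↔ ∀ v ∈ L, v e = 0)) ∧
  (∀ e, rk L univ ≤ rk L {e}ᶜ + 1 ∧ (rk L {e}ᶜ < rk L univ ↔ (Pi.single e 1 : ι → k) ∈ L)) ∧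
  (∀ e (S : Finset {i // i ≠ e}), rk (del L e) S = rk L (S.map (Function.Embedding.subtype _))) ∧
  (∀ e, (∃ v ∈ L, v e ≠ 0) → ∀ S : Finset {i // i ≠ e},
    rk (con L e) S + 1 = rk L (insert e (S.map (Function.Embedding.subtype _))))

/-- TUT: a connected matroid has no loops and coloops, and a connected minor. -/
def S_tut : Prop := ∀ (k ι : Type) [Field k] [Fintype ι] [DecidableEq ι]
  (L : Submodule k (ι → k)), 2 ≤ Fintype.card ι → Conn L →
  NL L ∧ ∀ e, Conn (del L e) ∨ Conn (con L e)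

/-- BET: the recursion of the beta invariant. -/
def S_bet : Prop := ∀ (k ι : Type) [Field k] [Fintype ι] [DecidableEq ι]
  (L : Submodule k (ι → k)),
  (¬ Conn L → beta L = 0) ∧
  (2 ≤ Fintype.card ι → NL L → ∀ e, beta L = beta (del L e) + beta (con L e)) ∧
  (Fintype.card ι = 1 → L ≠ ⊥ → beta L = 1) ∧
  (NL L → ∀ e, rk (del L e) univ = rk L univ ∧ rk (con L e) univ + 1 = rk L univ)

/-- MAI: the degree. -/
def S_mai : Prop := ∀ (k ι : Type) [Field k] [CharZero k] [Fintype ι] [DecidableEq ι]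
  (L : Submodule k (ι → k)) (o : ι), Conn L →
  ∃ N : ℕ, N ≠ 0 ∧ (N : ℤ) = 2 ^ (rk L univ - 1) * beta L ∧ HasN L o N

/-- DER: derivations with prescribed values. -/
def S_der : Prop := ∀ (k ι E : Type) [Field k] [Fintype ι] [DecidableEq ι] [Field E]
  [Algebra k E] (L : Submodule k (ι → k)) (o : ι) (x w : ι → E), Gen L o x w →
  ∀ a b : ι → E, InL L a → a o = 0 → InP L b →
    ∃ D : Derivation k E E, (∀ i, D (x i) = a i) ∧ ∀ i, D (w i) = b i

/-- BIR: the parametrisation is birational. -/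
def S_bir : Prop := ∀ (k ι E : Type) [Field k] [CharZero k] [Fintype ι] [DecidableEq ι] [Field E]
  [Algebra k E] (L : Submodule k (ι → k)) (o : ι) (x w : ι → E), Gen L o x w →
  Good k o x w → (∀ i, x i ≠ 0) →
    IntermediateField.adjoin k (Set.range fun i => x i ^ 2 * w i) = ⊤

/-- FEQ: the equation. -/
def S_feq : Prop := ∀ (k ι E : Type) [Field k] [CharZero k] [Fintype ι] [DecidableEq ι] [Field E]
  [Algebra k E] (L : Submodule k (ι → k)) (o : ι) (x w : ι → E), Gen L o x w →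
  Good k o x w → (∀ i, x i ≠ 0) →
    ∃ F : MvPolynomial ι k, Irreducible F ∧ F.IsHomogeneous (dg k o x w) ∧
      ∀ G : MvPolynomial ι k, aeval (fun i => x i ^ 2 * w i) G = 0 ↔ F ∣ G

/-- SPE: generic points and points. -/
def S_spe : Prop := ∀ (k ι E : Type) [Field k] [Infinite k] [Fintype ι] [DecidableEq ι] [Field E]
  [Algebra k E] (L : Submodule k (ι → k)) (o : ι) (x w : ι → E), (∀ i, ∃ v ∈ L, v i ≠ 0) →
  Gen L o x w → (∀ i, x i ≠ 0) ∧ ∀ G : MvPolynomial ι k,
    aeval (fun i => x i ^ 2 * w i) G = 0 ↔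
    ∀ a ∈ L, (∀ i, a i ≠ 0) → ∀ b : ι → k, (∀ v ∈ L, ∑ i, v i * b i = 0) →
      eval (fun i => a i ^ 2 * b i) G = 0

/-- ALG: the ideal of the dual variety. -/
def S_alg : Prop := ∀ (ι : Type) [Fintype ι] [DecidableEq ι] (L : Submodule ℂ (ι → ℂ)), Conn L →
  ∃ (N : ℕ) (F : MvPolynomial ι ℂ), (N : ℤ) = 2 ^ (rk L univ - 1) * beta L ∧
    Irreducible F ∧ F.IsHomogeneous N ∧
    ∀ G : MvPolynomial ι ℂ, F ∣ G ↔
      ∀ a ∈ L, (∀ i, a i ≠ 0) → ∀ b : ι → ℂ, (∀ v ∈ L, ∑ i, v i * b i = 0) →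
        eval (fun i => a i ^ 2 * b i) G = 0

/-! ### The geometric statement -/

/-- The closure in projective space (as a set of nonzero vectors). -/
def Cl {ι : Type} (A : Set (ι → ℂ)) : Set (ι → ℂ) :=
  {z | z ≠ 0 ∧ ∀ (G : MvPolynomial ι ℂ) (m : ℕ), G.IsHomogeneous m →
    (∀ a ∈ A, a ≠ 0 → eval a G = 0) → eval z G = 0}

/-- The embedded tangent space at `p` of the projective variety `X` (as a vector space). -/
def Tan {ι : Type} [Fintype ι] (X : Set (ι → ℂ)) (p : ι → ℂ) : Submodule ℂ (ι → ℂ) where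
  carrier := {u | ∀ (G : MvPolynomial ι ℂ) (m : ℕ), G.IsHomogeneous m →
    (∀ q ∈ X, eval q G = 0) → ∑ i, eval p (pderiv i G) * u i = 0}
  add_mem' := by
    intro a b ha hb G m h1 h2
    simp only [Pi.add_apply, mul_add, Finset.sum_add_distrib, ha G m h1 h2, hb G m h1 h2, add_zero]
  zero_mem' := by
    intro G m h1 h2
    simp
  smul_mem' := by
    intro c a ha G m h1 h2
    simp only [Pi.smul_apply, smul_eq_mul, mul_left_comm _ c, ← Finset.mul_sum, ha G m h1 h2,
      mul_zero]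

/-- A smooth point of the irreducible variety `X`: the tangent space has the least dimension. -/
def Smooth {ι : Type} [Fintype ι] (X : Set (ι → ℂ)) (p : ι → ℂ) : Prop :=
  p ∈ X ∧ ∀ q ∈ X, Module.finrank ℂ (Tan X p) ≤ Module.finrank ℂ (Tan X q)

/-- The dual variety: the closure of the set of hyperplanes tangent at some smooth point. -/
def Dual {ι : Type} [Fintype ι] (X : Set (ι → ℂ)) : Set (ι → ℂ) :=
  Cl {y | y ≠ 0 ∧ ∃ p, Smooth X p ∧ ∀ u ∈ Tan X p, ∑ i, y i * u i = 0}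

/-- The reciprocal of a linear space. -/
def Recip {ι : Type} (L : Submodule ℂ (ι → ℂ)) : Set (ι → ℂ) :=
  Cl {z | ∃ a ∈ L, (∀ i, a i ≠ 0) ∧ z = fun i => (a i)⁻¹}

/-- GEO: the geometry. -/
def S_geo : Prop := ∀ (ι : Type) [Fintype ι] [DecidableEq ι] (L : Submodule ℂ (ι → ℂ)),
  (∀ i, ∃ v ∈ L, v i ≠ 0) → ∀ (N : ℕ) (F : MvPolynomial ι ℂ), Irreducible F →
  F.IsHomogeneous N →
  (∀ G : MvPolynomial ι ℂ, F ∣ G ↔
      ∀ a ∈ L, (∀ i, a i ≠ 0) → ∀ b : ι → ℂ, (∀ v ∈ L, ∑ i, v i * b i = 0) →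
        eval (fun i => a i ^ 2 * b i) G = 0) →
  Dual (Recip L) = {y | y ≠ 0 ∧ eval y F = 0} ∧
  ∀ (G : MvPolynomial ι ℂ) (m : ℕ), G.IsHomogeneous m → 0 < m →
    ((∀ y ∈ Dual (Recip L), eval y G = 0) ↔ F ∣ G)

/-- TRA: the rank function of linear forms. -/
def S_tra : Prop := ∀ (ι κ : Type) [Fintype ι] [DecidableEq ι] [Fintype κ]
  (l : ι → ((κ → ℂ) →ₗ[ℂ] ℂ)) (S : Finset ι),
  rk (LinearMap.range (LinearMap.pi l)) S = Module.finrank ℂ (Submodule.span ℂ (l '' S))

end Pool.Agent.Q64.RL
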