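import Pool.Agent.Q64.RL.Stm

/-!
Project RL: the ideal of the dual variety.
-/

set_option autoImplicit false

open Finset MvPolynomial

namespace Pool.Agent.Q64.RL

theorem Conn.nonloop (htut : S_tut) {k ι : Type} [Field k] [Fintype ι] [DecidableEq ι]
    {L : Submodule k (ι → k)} (hL : Conn L) : ∀ i, ∃ v ∈ L, v i ≠ 0 := by
  intro i
  by_cases h : 2 ≤ Fintype.card ι
  · exact (htut k ι L h hL).1.1 i
  · obtain ⟨v, hv, hv0⟩ := (Submodule.ne_bot_iff L).1 hL.1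
    refine ⟨v, hv, fun h0 => hv0 ?_⟩
    funext j
    have hs : Subsingleton ι := by
      rw [← Fintype.card_le_one_iff_subsingleton]
      omega
    rw [Subsingleton.elim j i, h0]
    rfl

theorem alg (hmai : S_mai) (hmod : S_mod) (htut : S_tut) (hspe : S_spe) (hfeq : S_feq) :
    S_alg := by
  intro ι _ _ L hL
  have hnl := hL.nonloop htut
  obtain ⟨v, hv, hv0⟩ := (Submodule.ne_bot_iff L).1 hL.1
  obtain ⟨o, ho⟩ : ∃ o, v o ≠ 0 := by
    by_contra h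
    push Not at h
    exact hv0 (funext h)
  obtain ⟨N, hN0, hN, hH⟩ := hmai ℂ ι L o hL
  obtain ⟨E, _, _, x, w, hG⟩ := hmod ℂ ι L o ⟨v, hv, ho⟩
  obtain ⟨hgood, hdg⟩ := (hH E x w hG).2 hN0
  obtain ⟨hx, hsp⟩ := hspe ℂ ι E L o x w hnl hG
  obtain ⟨F, hF1, hF2, hF3⟩ := hfeq ℂ ι E L o x w hG hgood hx
  rw [hdg] at hF2
  exact ⟨N, F, hN, hF1, hF2, fun G => by rw [← hF3, hsp]⟩

end Pool.Agent.Q64.RL
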