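import Pool.Agent.Q64.RL.Flt

/-!
Project RL: derivations with prescribed values.
-/

set_option autoImplicit false

open Finset MvPolynomial TrivSqZeroExt

namespace Pool.Agent.Q64.RL

theorem exists_der {k E J : Type} [Field k] [Field E] [Algebra k E] {z : J → E}
    (hz : AlgebraicIndependent k z) (hgen : IntermediateField.adjoin k (Set.range z) = ⊤)
    (d : J → E) : ∃ D : Derivation k E E, ∀ j, D (z j) = d j := by
  classical
  let A := MvPolynomial J k
  let φ : A →ₐ[k] E := aeval z
  have hinj : Function.Injective φ := hz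
  let _ : Algebra A E := φ.toRingHom.toAlgebra
  have hmap : ∀ f : A, algebraMap A E f = aeval z f := fun f => rfl
  have hfaith : FaithfulSMul A E := (faithfulSMul_iff_algebraMap_injective _ _).2 hinj
  have hfrac : IsFractionRing A E := by
    apply IsFractionRing.of_field
    intro a
    have ha : a ∈ IntermediateField.adjoin k (Set.range z) := by rw [hgen]; trivial
    obtain ⟨r, s, rfl⟩ := (IntermediateField.mem_adjoin_range_iff k z a).1 ha
    exact ⟨r, s, rfl⟩
  let ψ : A →ₐ[k] TrivSqZeroExt E E := aeval fun j => inl (z j) + inr (d j)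
  have hfst : ∀ f : A, (ψ f).fst = aeval z f := by
    intro f
    have h1 : (fstHom k E E).comp ψ = φ := by
      apply MvPolynomial.algHom_ext
      intro j
      simp [ψ, φ]
    exact DFunLike.congr_fun h1 f
  have hu : ∀ y : nonZeroDivisors A, IsUnit (ψ.toRingHom (y : A)) := by
    intro y
    rw [TrivSqZeroExt.isUnit_iff_isUnit_fst]
    change IsUnit (ψ (y : A)).fst
    rw [hfst, isUnit_iff_ne_zero]
    intro h
    exact nonZeroDivisors.coe_ne_zero y (hinj (by rw [map_zero]; exact h))
  let g : E →+* TrivSqZeroExt E E := IsLocalization.lift hu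
  have hg : ∀ f : A, g (aeval z f) = ψ f := fun f => IsLocalization.lift_eq hu f
  have hgf : ∀ a, (g a).fst = a := by
    have h1 : ((fstHom k E E).toRingHom.comp g) = RingHom.id E := by
      apply IsLocalization.ringHom_ext (nonZeroDivisors A)
      ext f
      · simp only [RingHom.comp_apply, RingHom.id_apply]
        change (g (aeval z (C f))).fst = aeval z (C f)
        rw [hg, hfst]
      · simp only [RingHom.comp_apply, RingHom.id_apply]
        change (g (aeval z (X f))).fst = aeval z (X f)
        rw [hg, hfst]
    exact fun a => DFunLike.congr_fun h1 a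
  have hgk : ∀ c : k, g (algebraMap k E c) = algebraMap k _ c := by
    intro c
    have := hg (C c)
    rw [aeval_C, ← MvPolynomial.algebraMap_eq, AlgHom.commutes] at this
    exact this
  let D : Derivation k E E := Derivation.mk'
    { toFun := fun a => (g a).snd
      map_add' := fun a b => by rw [map_add, snd_add]
      map_smul' := fun c a => by
        rw [Algebra.smul_def, map_mul, hgk, snd_mul]
        simp [hgf, Algebra.smul_def, TrivSqZeroExt.algebraMap_eq_inl'] }
    (fun a b => by
      simp only [LinearMap.coe_mk, AddHom.coe_mk]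
      rw [map_mul, snd_mul, hgf, hgf]
      simp [mul_comm])
  refine ⟨D, fun j => ?_⟩
  change (g (z j)).snd = d j
  have := hg (X j)
  rw [aeval_X] at this
  rw [this]
  change (aeval (fun j => (inl (z j) + inr (d j) : TrivSqZeroExt E E)) (X j)).snd = d j
  rw [aeval_X, snd_add, snd_inl, snd_inr, zero_add]

theorem not_loop {k ι E : Type} [Field k] [Fintype ι] [DecidableEq ι] [Field E] [Algebra k E]
    {L : Submodule k (ι → k)} {o : ι} {x w : ι → E} (h : Gen L o x w) : ∃ v ∈ L, v o ≠ 0 := by
  by_contra hcon
  push Not at hcon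
  have h1 := h.hx (Pi.single o 1) (by
    intro v hv
    rw [Finset.sum_eq_single o]
    · rw [hcon v hv, zero_mul]
    · intro i _ hi
      rw [Pi.single_eq_of_ne hi, mul_zero]
    · simp)
  rw [Finset.sum_eq_single o] at h1
  · rw [h.xo] at h1
    simp at h1
  · intro i _ hi
    rw [Pi.single_eq_of_ne hi, map_zero, zero_mul]
  · simp

theorem der : S_bas → S_coo → S_zfa → S_der := by
  intro hbas hcoo hzfa k ι E _ _ _ _ _ L o x w hG a b ha hao hb
  classical
  obtain ⟨B, hB, hoB⟩ := (hbas k ι L o (not_loop hG)).1
  obtain ⟨c, hc⟩ := hcoo k ι L B hB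
  obtain ⟨hz, hgen⟩ := hzfa k ι E L B o x w hB hoB hG
  obtain ⟨D, hD⟩ := exists_der hz hgen (fun i => if (i : ι) ∈ B then a i else b i)
  have h1 : ∀ i ∈ B, D (x i) = a i := by
    intro i hi
    by_cases hio : i = o
    · subst hio
      rw [hG.xo, Derivation.map_one_eq_zero, hao]
    · have := hD ⟨i, hio⟩
      simpa [zf, hi] using this
  have h2 : ∀ i ∉ B, D (w i) = b i := by
    intro i hi
    have hio : i ≠ o := by
      rintro rfl
      exact hi hoB
    have := hD ⟨i, hio⟩
    simpa [zf, hi] using this
  have hx := ((hc E x w).1).1 hG.hx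
  have ha' := ((hc E a b).1).1 ha
  have hw := ((hc E x w).2).1 hG.hw
  have hb' := ((hc E a b).2).1 hb
  refine ⟨D, fun i => ?_, fun i => ?_⟩
  · by_cases hi : i ∈ B
    · exact h1 i hi
    · rw [hx i hi, ha' i hi, map_sum]
      refine Finset.sum_congr rfl fun j hj => ?_
      rw [Derivation.leibniz, Derivation.map_algebraMap, smul_zero, add_zero, h1 j hj,
        smul_eq_mul]
  · by_cases hi : i ∈ B
    · rw [hw i hi, hb' i hi, map_neg, map_sum]
      congr 1
      refine Finset.sum_congr rfl fun j hj => ?_
      rw [Derivation.leibniz, Derivation.map_algebraMap, smul_zero, add_zero,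
        h2 j (Finset.mem_compl.1 hj), smul_eq_mul]
    · exact h2 i hi

end Pool.Agent.Q64.RL
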