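import Pool.Agent.Q64.RL.Flt

/-!
Project RL: existence of the valuation of a purely transcendental field at a coordinate.
-/

set_option autoImplicit false

open Finset MvPolynomial WithZero
open scoped IntermediateField.algebraAdjoinAdjoin

namespace Pool.Agent.Q64.RL

theorem exv : S_exv := by
  intro k E J _ _ _ _ _ z e hz hgen
  classical
  let K0 := IntermediateField.adjoin k (z '' {j | j ≠ e})
  have h1 : Transcendental (Algebra.adjoin k (z '' {j | j ≠ e})) (z e) :=
    hz.transcendental_adjoin (s := {j | j ≠ e}) (by simp)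
  have h2 : Transcendental K0 (z e) := by
    exact h1.extendScalars K0
  have hinj := transcendental_iff_injective.1 h2
  let φ : Polynomial K0 →ₐ[K0] E := Polynomial.aeval (z e)
  let _ : Algebra (Polynomial K0) E := φ.toRingHom.toAlgebra
  have hmap : ∀ f : Polynomial K0, algebraMap (Polynomial K0) E f = Polynomial.aeval (z e) f :=
    fun f => rfl
  have hmem : ∀ G : MvPolynomial J k, ∃ f : Polynomial K0,
      algebraMap (Polynomial K0) E f = aeval z G := by
    intro G
    induction G using MvPolynomial.induction_on with
    | C a =>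
      refine ⟨Polynomial.C (algebraMap k K0 a), ?_⟩
      rw [hmap, Polynomial.aeval_C, aeval_C]
      rfl
    | add p q hp hq =>
      obtain ⟨f, hf⟩ := hp
      obtain ⟨g, hg⟩ := hq
      exact ⟨f + g, by rw [map_add, hf, hg, map_add (aeval z)]⟩
    | mul_X p j hp =>
      obtain ⟨f, hf⟩ := hp
      by_cases hj : j = e
      · subst hj
        exact ⟨f * Polynomial.X, by
          rw [map_mul, hf, map_mul (aeval z), aeval_X, hmap, Polynomial.aeval_X]⟩
      · refine ⟨f * Polynomial.C ⟨z j, IntermediateField.subset_adjoin _ _ ⟨j, hj, rfl⟩⟩, ?_⟩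
        rw [map_mul, hf, map_mul (aeval z), aeval_X, hmap (Polynomial.C _), Polynomial.aeval_C]
        rfl
  have hfaith : FaithfulSMul (Polynomial K0) E :=
    (faithfulSMul_iff_algebraMap_injective _ _).2 hinj
  have hfrac : IsFractionRing (Polynomial K0) E := by
    apply IsFractionRing.of_field
    intro a
    have ha : a ∈ IntermediateField.adjoin k (Set.range z) := by rw [hgen]; trivial
    obtain ⟨r, s, rfl⟩ := (IntermediateField.mem_adjoin_range_iff k z a).1 ha
    obtain ⟨f, hf⟩ := hmem r
    obtain ⟨g, hg⟩ := hmem s
    exact ⟨f, g, by rw [hf, hg]⟩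
  let P := Polynomial.idealX K0
  let v : Valuation E ℤᵐ⁰ := P.valuation E
  have hX : v (z e) = exp (-1) := by
    have h3 : z e = algebraMap (Polynomial K0) E Polynomial.X := by
      rw [hmap, Polynomial.aeval_X]
    rw [h3]
    change P.valuation E _ = _
    rw [IsDedekindDomain.HeightOneSpectrum.valuation_of_algebraMap]
    exact IsDedekindDomain.HeightOneSpectrum.intValuation_singleton _ Polynomial.X_ne_zero
      (Polynomial.idealX_span K0)
  have hC : ∀ c : K0, c ≠ 0 → v (c : E) = 1 := by
    intro c hc
    have h3 : (c : E) = algebraMap (Polynomial K0) E (Polynomial.C c) := by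
      rw [hmap, Polynomial.aeval_C]
      rfl
    rw [h3]
    change P.valuation E _ = _
    rw [IsDedekindDomain.HeightOneSpectrum.valuation_eq_one_iff_notMem]
    rw [Polynomial.idealX_span, Ideal.mem_span_singleton, Polynomial.X_dvd_iff]
    simpa using hc
  refine ⟨v, ?_, ?_, hX, ?_⟩
  · intro x
    rcases eq_or_ne x 0 with rfl | hx
    · exact ⟨0, map_zero v⟩
    · refine ⟨z e ^ (-log x), ?_⟩
      rw [map_zpow₀, hX, ← exp_zsmul, smul_eq_mul]
      rw [show -log x * (-1 : ℤ) = log x by ring, exp_log hx]
  · intro c hc
    have := hC (algebraMap k K0 c) (by simpa using hc)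
    exact this
  · intro G hG
    have h3 : aeval (fun j : ({j | j ≠ e} : Set J) => z j) G ∈ K0 := by
      apply IntermediateField.algebra_adjoin_le_adjoin
      have : z '' {j | j ≠ e} = Set.range (fun j : ({j | j ≠ e} : Set J) => z j) := by
        rw [Set.image_eq_range]
      rw [this, Algebra.adjoin_range_eq_range_aeval]
      exact ⟨G, rfl⟩
    have h4 := hC ⟨_, h3⟩ (by
      intro h5
      have h6 : aeval (fun j : ({j | j ≠ e} : Set J) => z j) G = 0 := congrArg Subtype.val h5
      have h7 : AlgebraicIndependent k (fun j : ({j | j ≠ e} : Set J) => z j) :=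
        hz.comp _ Subtype.val_injective
      exact hG ((algebraicIndependent_iff.1 h7) G h6))
    exact h4

end Pool.Agent.Q64.RL
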