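import Pool.Agent.Q64.RL.Stm

/-!
Project RL: classification of the places over `y e = 0`.
-/

set_option autoImplicit false

open Finset MvPolynomial

namespace Pool.Agent.Q64.RL

section

variable {k E Γ κ : Type} [Field k] [Field E] [Algebra k E]
  [LinearOrderedCommGroupWithZero Γ] [Field κ] [Algebra k κ] {v : Valuation E Γ} {ρ : E → κ}

theorem Place.rho_zero (P : Place k v ρ) : ρ 0 = 0 := by
  simpa using P.alg 0

theorem Place.rho_one (P : Place k v ρ) : ρ 1 = 1 := by
  simpa using P.alg 1

theorem Place.of_lt (P : Place k v ρ) {a : E} (h : v a < 1) : ρ a = 0 :=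
  (P.zero a h.le).2 h

theorem Triv.le (h : Triv k v) (c : k) : v (algebraMap k E c) ≤ 1 := by
  rcases eq_or_ne c 0 with rfl | hc
  · simp
  · exact (h c hc).le

theorem val_sum_le {I : Type} {s : Finset I} {f : I → E} (h : ∀ i ∈ s, v (f i) ≤ 1) :
    v (∑ i ∈ s, f i) ≤ 1 :=
  Valuation.map_sum_le v h

theorem Place.rho_sum (P : Place k v ρ) {I : Type} (s : Finset I) (f : I → E)
    (h : ∀ i ∈ s, v (f i) ≤ 1) : ρ (∑ i ∈ s, f i) = ∑ i ∈ s, ρ (f i) := by
  classical
  induction s using Finset.induction_on with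
  | empty => simpa using P.rho_zero
  | insert a s ha ih =>
    rw [Finset.sum_insert ha, Finset.sum_insert ha, P.add, ih fun i hi => h i (by simp [hi])]
    · exact h a (by simp)
    · exact val_sum_le fun i hi => h i (by simp [hi])

theorem Place.rho_smul (P : Place k v ρ) (c : k) {a : E} (h : v a ≤ 1) :
    ρ (algebraMap k E c * a) = algebraMap k κ c * ρ a := by
  rw [P.mul _ _ (P.triv.le c) h, P.alg]

/-- the key contradiction -/
theorem key (hpol : S_pol) (hplb : S_plb) (P : Place k v ρ) {ι : Type} [Fintype ι]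
    [DecidableEq ι] {y : ι → E} {s : Set ι} (hr : RInd k v y s) (G : Finset ι)
    (hG : G.Nonempty) (hGs : ∀ i ∈ G, i ∈ s) (V : Submodule k (G → k)) (ξ ω : G → κ)
    (hξ : InL V ξ) (hω : InP V ω) (h : ∀ i : G, ξ i ^ 2 * ω i = ρ (y i)) : False := by
  have : Nonempty G := hG.to_subtype
  obtain ⟨Q, hQ0, hQ⟩ := hpol k G V
  have h1 := hQ κ ξ ω hξ hω
  have h2 : ∀ i : ι, i ∈ s → v (y i) = 1 := by
    intro i hi
    have := hr (X ⟨i, hi⟩) (X_ne_zero _)
    simpa using this
  have h3 := (hplb k E Γ κ v ρ P G (fun i => y i) fun i => (h2 i (hGs i i.2)).le).1 Q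
  have h4 : aeval (fun i : G => ρ (y i)) Q = 0 := by
    rw [← h1]
    congr 1
    exact congrArg aeval (funext fun i => (h i).symm)
  rw [h4] at h3
  have h5 := (P.zero _ h3.1).1 h3.2
  have h6 := hr (rename (fun i : G => (⟨i, hGs i i.2⟩ : s)) Q) (by
    intro h0
    apply hQ0
    apply rename_injective _ _ (by rw [h0, map_zero])
    intro a b hab
    exact Subtype.ext (congrArg (fun z : s => (z : ι)) hab))
  rw [aeval_rename] at h6
  have h7 : ((fun j : s => y j) ∘ fun i : G => (⟨i, hGs i i.2⟩ : s)) = fun i : G => y i := rfl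
  rw [h7] at h6
  exact absurd h5 (by rw [h6]; exact lt_irrefl _)

end

/-- a functional vanishing on a subspace given by coordinates -/
theorem ext_rel {k ι : Type} [Field k] [Fintype ι] [DecidableEq ι] (L : Submodule k (ι → k))
    (φ : (ι → k) →ₗ[k] k) (F : Finset ι) (h : ∀ u ∈ L, (∀ i ∈ F, u i = 0) → φ u = 0) :
    ∃ c : ι → k, ∀ u ∈ L, φ u = ∑ i ∈ F, c i * u i := by
  classical
  let f : F → (L →ₗ[k] k) := fun i => (LinearMap.proj (i : ι)).comp L.subtype
  have h1 : (φ.comp L.subtype) ∈ Submodule.span k (Set.range f) := by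
    apply mem_span_of_iInf_ker_le_ker
    intro u hu
    rw [LinearMap.mem_ker]
    apply h u u.2
    intro i hi
    have := (Submodule.mem_iInf _).1 hu ⟨i, hi⟩
    exact this
  obtain ⟨c, hc⟩ := (Submodule.mem_span_range_iff_exists_fun k).1 h1
  refine ⟨fun i => if h : i ∈ F then c ⟨i, h⟩ else 0, fun u hu => ?_⟩
  have h2 := LinearMap.congr_fun hc ⟨u, hu⟩
  rw [← Finset.sum_attach]
  simp only [LinearMap.sum_apply, LinearMap.smul_apply, smul_eq_mul] at h2
  rw [show φ u = (φ.comp L.subtype) ⟨u, hu⟩ from rfl, ← h2]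
  simp [f]

section

variable {k ι E Γ κ : Type} [Field k] [Fintype ι] [DecidableEq ι] [Field E] [Algebra k E]
  [LinearOrderedCommGroupWithZero Γ] [Field κ] [Algebra k κ] {v : Valuation E Γ} {ρ : E → κ}
  {L : Submodule k (ι → k)} {x w : ι → E}

theorem no_big (hperp : S_perp) (P : Place k v ρ) {e : ι} (hes : (Pi.single e 1 : ι → k) ∉ L)
    (hx : InL L x) (hxe : x e ≠ 0) (h : ∀ i, i ≠ e → v (x i) < v (x e)) : False := by
  classical
  apply hes
  apply (hperp k ι L).1
  intro a ha
  have h1 := hx a ha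
  have h2 : ∑ i, algebraMap k E (a i) * (x i / x e) = 0 := by
    simp only [← mul_div_assoc, ← Finset.sum_div]
    rw [h1, zero_div]
  have hv : v (x e) ≠ 0 := (Valuation.ne_zero_iff v).2 hxe
  have h3 : ∀ i, v (x i / x e) ≤ 1 := by
    intro i
    rcases eq_or_ne i e with rfl | hi
    · rw [div_self hxe, map_one]
    · rw [map_div₀]
      exact (div_le_one₀ (zero_lt_iff.2 hv)).2 (h i hi).le
  have h4 := congrArg ρ h2
  rw [P.rho_zero, P.rho_sum _ _ fun i _ => by
    rw [map_mul]; exact mul_le_one' (P.triv.le _) (h3 i)] at h4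
  rw [Finset.sum_eq_single e] at h4
  · rw [div_self hxe, P.rho_smul _ (by simp), P.rho_one, mul_one] at h4
    have h5 : a e = 0 := by simpa using h4
    rw [Finset.sum_eq_single e]
    · rw [h5, mul_zero]
    · intro i _ hi
      rw [Pi.single_eq_of_ne hi, zero_mul]
    · simp
  · intro i _ hi
    rw [P.rho_smul _ (h3 i), P.of_lt, mul_zero]
    rw [map_div₀]
    exact (div_lt_one₀ (zero_lt_iff.2 hv)).2 (h i hi)
  · simp

theorem no_level (hpol : S_pol) (hplb : S_plb) (P : Place k v ρ) {o e j : ι}
    (hx : InL L x) (hw : InP L w)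
    (hr : RInd k v (fun i => x i ^ 2 * w i) {i | i ≠ o ∧ i ≠ e})
    (hj : x j ≠ 0) (hje : j ≠ e) (ho : v (x o) ≠ v (x j))
    (h : ∀ i, v (x j) ≤ v (x i) → (i = e ∨ v (x i) ≠ v (x j)) → v (w i * x j ^ 2) < 1) :
    False := by
  classical
  let F : Finset ι := univ.filter fun i => v (x i) < v (x j)
  let G : Finset ι := univ.filter fun i => i ≠ e ∧ v (x i) = v (x j)
  have hv : v (x j) ≠ 0 := (Valuation.ne_zero_iff v).2 hj
  have hGs : ∀ i ∈ G, i ∈ {i | i ≠ o ∧ i ≠ e} := by
    intro i hi
    have hi' := (Finset.mem_filter.1 hi).2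
    refine ⟨?_, hi'.1⟩
    rintro rfl
    exact ho hi'.2
  have hy : ∀ i ∈ G, v (w i * x j ^ 2) = 1 := by
    intro i hi
    have hi' := (Finset.mem_filter.1 hi).2
    have h1 := hr (X ⟨i, hGs i hi⟩) (X_ne_zero _)
    rw [aeval_X, map_mul, map_pow, hi'.2] at h1
    rw [map_mul, map_pow, mul_comm]
    exact h1
  have hxG : ∀ i ∈ G, v (x i / x j) = 1 := by
    intro i hi
    rw [map_div₀, (Finset.mem_filter.1 hi).2.2, div_self hv]
  have hxF : ∀ i ∈ F, v (x i / x j) < 1 := by
    intro i hi
    rw [map_div₀]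
    exact (div_lt_one₀ (zero_lt_iff.2 hv)).2 (Finset.mem_filter.1 hi).2
  let V : Submodule k (G → k) :=
    { carrier := {u | ∃ z ∈ L, (∀ i ∈ F, z i = 0) ∧ ∀ i : G, z i = u i}
      add_mem' := by
        rintro a b ⟨z, hz, h1, h2⟩ ⟨z', hz', h1', h2'⟩
        exact ⟨z + z', L.add_mem hz hz', fun i hi => by simp [h1 i hi, h1' i hi],
          fun i => by simp [h2 i, h2' i]⟩
      zero_mem' := ⟨0, L.zero_mem, fun _ _ => rfl, fun _ => rfl⟩
      smul_mem' := by
        rintro c a ⟨z, hz, h1, h2⟩
        exact ⟨c • z, L.smul_mem c hz, fun i hi => by simp [h1 i hi], fun i => by simp [h2 i]⟩ }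
  have hjG : j ∈ G := by
    rw [Finset.mem_filter]
    exact ⟨mem_univ _, hje, rfl⟩
  refine key hpol hplb P hr G ⟨j, hjG⟩ hGs V (fun i => ρ (x i / x j))
    (fun i => ρ (w i * x j ^ 2)) ?_ ?_ ?_
  · -- the relations of `V`
    intro a ha
    obtain ⟨c, hc⟩ := ext_rel L (∑ i : G, a i • LinearMap.proj (i : ι)) F (by
      intro u hu huF
      have h1 := ha (fun i => u i) ⟨u, hu, huF, fun _ => rfl⟩
      rw [LinearMap.sum_apply, ← h1]
      exact Finset.sum_congr rfl fun i _ => by simp [mul_comm])
    let b : ι → k := fun i => (if h : i ∈ G then a ⟨i, h⟩ else 0) - (if i ∈ F then c i else 0)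
    have hb : ∀ u ∈ L, ∑ i, u i * b i = 0 := by
      intro u hu
      have h1 := hc u hu
      rw [LinearMap.sum_apply] at h1
      simp only [b, mul_sub, Finset.sum_sub_distrib]
      rw [sub_eq_zero]
      have h2 : ∑ i, u i * (if h : i ∈ G then a ⟨i, h⟩ else 0) = ∑ i : G, a i * u i := by
        rw [← Finset.sum_subset (Finset.subset_univ G), ← Finset.sum_attach]
        · exact Finset.sum_congr rfl fun i _ => by
            rw [dif_pos i.2, mul_comm]
        · intro i _ hi
          rw [dif_neg hi, mul_zero]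
      have h3 : ∑ i, u i * (if i ∈ F then c i else 0) = ∑ i ∈ F, c i * u i := by
        rw [← Finset.sum_subset (Finset.subset_univ F)]
        · exact Finset.sum_congr rfl fun i hi => by rw [if_pos hi, mul_comm]
        · intro i _ hi
          rw [if_neg hi, mul_zero]
      rw [h2, h3, ← h1]
      exact Finset.sum_congr rfl fun i _ => by simp
    have h1 := hx b hb
    have h2 : ∑ i, algebraMap k E (b i) * (x i / x j) = 0 := by
      simp only [← mul_div_assoc, ← Finset.sum_div]
      rw [h1, zero_div]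
    have hle : ∀ i, v (algebraMap k E (b i) * (x i / x j)) ≤ 1 := by
      intro i
      by_cases hi : i ∈ G
      · rw [map_mul]
        exact mul_le_one' (P.triv.le _) (hxG i hi).le
      · by_cases hi' : i ∈ F
        · rw [map_mul]
          exact mul_le_one' (P.triv.le _) (hxF i hi').le
        · simp [b, hi, hi']
    have h3 := congrArg ρ h2
    rw [P.rho_zero, P.rho_sum _ _ fun i _ => hle i] at h3
    rw [← h3, ← Finset.sum_subset (Finset.subset_univ G), ← Finset.sum_attach G]
    · refine Finset.sum_congr rfl fun i _ => ?_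
      rw [P.rho_smul _ (hxG i i.2).le]
      have hiF : (i : ι) ∉ F := by
        intro hi
        exact absurd (Finset.mem_filter.1 hi).2 (by
          rw [(Finset.mem_filter.1 i.2).2.2]; exact lt_irrefl _)
      simp only [b, i.2, hiF, dif_pos, if_false, sub_zero]
    · intro i _ hi
      by_cases hi' : i ∈ F
      · rw [P.rho_smul _ (hxF i hi').le, P.of_lt (hxF i hi'), mul_zero]
      · simp only [b, dif_neg hi, if_neg hi', sub_zero, map_zero, zero_mul]
        exact P.rho_zero
  · -- orthogonality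
    rintro u ⟨z, hz, hzF, hzu⟩
    have h1 := hw z hz
    have h2 : ∑ i, algebraMap k E (z i) * (w i * x j ^ 2) = 0 := by
      simp only [← mul_assoc, ← Finset.sum_mul]
      rw [h1, zero_mul]
    have hoth : ∀ i, i ∉ G → i ∉ F → v (w i * x j ^ 2) < 1 := by
      intro i hiG hiF
      apply h i
      · by_contra h3
        exact hiF (Finset.mem_filter.2 ⟨mem_univ _, not_le.1 h3⟩)
      · by_contra h3
        push Not at h3
        exact hiG (Finset.mem_filter.2 ⟨mem_univ _, h3⟩)
    have hle : ∀ i, v (algebraMap k E (z i) * (w i * x j ^ 2)) ≤ 1 := by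
      intro i
      by_cases hi : i ∈ G
      · rw [map_mul]
        exact mul_le_one' (P.triv.le _) (hy i hi).le
      · by_cases hi' : i ∈ F
        · rw [hzF i hi']
          simp
        · rw [map_mul]
          exact mul_le_one' (P.triv.le _) (hoth i hi hi').le
    have h3 := congrArg ρ h2
    rw [P.rho_zero, P.rho_sum _ _ fun i _ => hle i] at h3
    rw [← h3, ← Finset.sum_subset (Finset.subset_univ G), ← Finset.sum_attach G]
    · refine Finset.sum_congr rfl fun i _ => ?_
      rw [P.rho_smul _ (hy i i.2).le, hzu i]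
    · intro i _ hi
      by_cases hi' : i ∈ F
      · rw [hzF i hi', map_zero, zero_mul, P.rho_zero]
      · rw [P.rho_smul _ (hoth i hi hi').le, P.of_lt (hoth i hi hi'), mul_zero]
  · intro i
    have h1 : x i ^ 2 * w i = (x i / x j) * ((x i / x j) * (w i * x j ^ 2)) := by
      field_simp
    have h2 := (hxG i i.2).le
    have h3 := (hy i i.2).le
    rw [h1, P.mul _ _ h2 (by rw [map_mul]; exact mul_le_one' h2 h3), P.mul _ _ h2 h3, sq,
      mul_assoc]

end

theorem flt : S_plc → S_plb → S_perp → S_pol → S_flt := by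
  intro hplc hplb hperp hpol k ι E Γ _ _ _ _ _ _ L o e x w v heo hes hxo hx hw ht hr he hwo
  obtain ⟨κ, _, _, ρ, P⟩ := hplc k E Γ v ht
  have hy : ∀ i, i ≠ o → i ≠ e → v (x i) ^ 2 * v (w i) = 1 := by
    intro i h1 h2
    have h3 := hr (X ⟨i, h1, h2⟩) (X_ne_zero _)
    rwa [aeval_X, map_mul, map_pow] at h3
  have hxo' : v (x o) = 1 := by rw [hxo, map_one]
  have hne : (univ.erase e).Nonempty := ⟨o, Finset.mem_erase.2 ⟨heo.symm, mem_univ _⟩⟩
  rw [map_mul, map_pow] at he
  have hbig : 1 < v (x e) → (∀ i, i ≠ e → v (x i) ≤ 1) → False := by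
    intro h1 h2
    refine no_big hperp P hes hx ?_ fun i hi => (h2 i hi).trans_lt h1
    intro h0
    rw [h0, map_zero] at h1
    exact absurd h1 (not_lt.2 zero_le_one)
  -- first part
  have hle : ∀ i, i ≠ e → v (x i) ≤ 1 := by
    obtain ⟨j, hj, hmax⟩ := Finset.exists_max_image (univ.erase e) (fun i => v (x i)) hne
    have hje := (Finset.mem_erase.1 hj).1
    have hmax' : ∀ i, i ≠ e → v (x i) ≤ v (x j) := fun i hi =>
      hmax i (Finset.mem_erase.2 ⟨hi, mem_univ _⟩)
    by_contra hcon
    have h1 : 1 < v (x j) := by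
      by_contra h2
      exact hcon fun i hi => (hmax' i hi).trans (not_lt.1 h2)
    have hj0 : x j ≠ 0 := by
      intro h0
      rw [h0, map_zero] at h1
      exact absurd h1 (not_lt.2 zero_le_one)
    rcases lt_or_ge (v (x j)) (v (x e)) with h2 | h2
    · refine no_big hperp P hes hx ?_ fun i hi => (hmax' i hi).trans_lt h2
      intro h0
      rw [h0, map_zero] at h2
      exact not_lt_zero h2
    · refine no_level hpol hplb P hx hw hr hj0 hje (by rw [hxo']; exact h1.ne) ?_
      intro i hi1 hi2
      have hie : i = e := by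
        rcases hi2 with h | h
        · exact h
        · by_contra hie
          exact h (le_antisymm (hmax' i hie) hi1)
      subst hie
      have h3 : v (x i) = v (x j) := le_antisymm h2 hi1
      rw [map_mul, map_pow, ← h3, mul_comm]
      exact he
  -- second part
  have hge : ∀ i, i ≠ e → 1 ≤ v (x i) := by
    obtain ⟨j, hj, hmin⟩ := Finset.exists_min_image (univ.erase e) (fun i => v (x i)) hne
    have hje := (Finset.mem_erase.1 hj).1
    have hmin' : ∀ i, i ≠ e → v (x j) ≤ v (x i) := fun i hi =>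
      hmin i (Finset.mem_erase.2 ⟨hi, mem_univ _⟩)
    by_contra hcon
    have h1 : v (x j) < 1 := by
      by_contra h2
      exact hcon fun i hi => (not_lt.1 h2).trans (hmin' i hi)
    have hjo : j ≠ o := by
      rintro rfl
      exact absurd hxo' h1.ne
    have hj0 : x j ≠ 0 := by
      intro h0
      have := hy j hjo hje
      rw [h0, map_zero, zero_pow two_ne_zero, zero_mul] at this
      exact zero_ne_one this
    have hv0 : v (x j) ≠ 0 := (Valuation.ne_zero_iff v).2 hj0
    have hvp : 0 < v (x j) := zero_lt_iff.2 hv0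
    refine no_level hpol hplb P hx hw hr hj0 hje (by rw [hxo']; exact h1.ne') ?_
    intro i hi1 hi2
    rw [map_mul, map_pow]
    by_cases hie : i = e
    · subst hie
      refine lt_of_le_of_lt ?_ he
      rw [mul_comm]
      gcongr
    · have h3 : v (x j) < v (x i) := lt_of_le_of_ne hi1 (by
        rcases hi2 with h | h
        · exact absurd h hie
        · exact Ne.symm h)
      by_cases hio : i = o
      · subst hio
        calc v (w i) * v (x j) ^ 2 ≤ 1 * v (x j) ^ 2 := by gcongr
          _ = v (x j) ^ 2 := one_mul _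
          _ < 1 := pow_lt_one₀ zero_le h1 two_ne_zero
      · have h4 := hy i hio hie
        have hw0 : 0 < v (w i) := by
          rw [zero_lt_iff]
          intro h0
          rw [h0, mul_zero] at h4
          exact zero_ne_one h4
        rw [← h4, mul_comm]
        gcongr
  refine ⟨fun i hi => le_antisymm (hle i hi) (hge i hi), ?_⟩
  by_contra h
  exact hbig (not_le.1 h) hle

end Pool.Agent.Q64.RL
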