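import Pool.Agent.Q64.RL.Flt

/-!
Project RL: residue maps; `y o` is integral.
-/

set_option autoImplicit false

open Finset MvPolynomial

namespace Pool.Agent.Q64.RL

theorem intg : S_perp → S_int := by
  intro hperp k ι E Γ _ _ _ _ _ _ L o x w v hxo hx hw ht hy
  classical
  by_contra hcon
  rw [not_le] at hcon
  have hvo : v (x o) ≠ 0 := (Valuation.ne_zero_iff v).2 hxo
  let F : Finset ι := univ.filter fun i => v (x i) < v (x o)
  have h1 : ∃ u ∈ L, (∀ i ∈ F, u i = 0) ∧ u o ≠ 0 := by
    by_contra h
    push Not at h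
    obtain ⟨c, hc⟩ := (hperp k ι L).2.1 F o h
    have h2 := hx (fun i => (if i = o then 1 else 0) - (if i ∈ F then c i else 0)) (by
      intro u hu
      simp only [mul_sub, Finset.sum_sub_distrib, mul_ite, mul_one, mul_zero]
      rw [Finset.sum_ite_eq' univ o, if_pos (mem_univ _), hc u hu, sub_eq_zero,
        ← Finset.sum_filter, Finset.filter_mem_eq_inter, Finset.univ_inter]
      exact Finset.sum_congr rfl fun i _ => mul_comm _ _)
    have h3 : x o = ∑ i ∈ F, algebraMap k E (c i) * x i := by
      simp only [map_sub, sub_mul, Finset.sum_sub_distrib] at h2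
      rw [sub_eq_zero] at h2
      rw [Finset.sum_eq_single o] at h2
      · simp only [if_true, map_one, one_mul] at h2
        rw [h2, ← Finset.sum_subset (Finset.subset_univ F)]
        · exact Finset.sum_congr rfl fun i hi => by rw [if_pos hi]
        · intro i _ hi
          rw [if_neg hi, map_zero, zero_mul]
      · intro i _ hi
        rw [if_neg hi, map_zero, zero_mul]
      · simp
    have h4 : v (x o) < v (x o) := by
      nth_rewrite 1 [h3]
      apply Valuation.map_sum_lt v hvo
      intro i hi
      rw [map_mul]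
      calc v (algebraMap k E (c i)) * v (x i) ≤ 1 * v (x i) := by
            gcongr
            exact ht.le _
        _ = v (x i) := one_mul _
        _ < v (x o) := (Finset.mem_filter.1 hi).2
    exact lt_irrefl _ h4
  obtain ⟨u, hu, huF, huo⟩ := h1
  have h2 := hw u hu
  rw [← Finset.add_sum_erase _ _ (mem_univ o)] at h2
  have h3 : algebraMap k E (u o) * (x o ^ 2 * w o)
      = - ∑ i ∈ univ.erase o, algebraMap k E (u i) * (w i * x o ^ 2) := by
    have h4 : ∑ i ∈ univ.erase o, algebraMap k E (u i) * (w i * x o ^ 2)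
        = (∑ i ∈ univ.erase o, algebraMap k E (u i) * w i) * x o ^ 2 := by
      rw [Finset.sum_mul]
      exact Finset.sum_congr rfl fun i _ => by ring
    rw [h4]
    linear_combination (x o ^ 2) * h2
  have h4 : v (algebraMap k E (u o) * (x o ^ 2 * w o)) ≤ 1 := by
    rw [h3, Valuation.map_neg]
    apply Valuation.map_sum_le
    intro i hi
    have hio := (Finset.mem_erase.1 hi).1
    by_cases hiF : i ∈ F
    · rw [huF i hiF]
      simp
    · have h5 : v (x o) ≤ v (x i) := by
        by_contra h
        exact hiF (Finset.mem_filter.2 ⟨mem_univ _, not_le.1 h⟩)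
      rw [map_mul]
      refine mul_le_one' (ht.le _) ?_
      refine le_trans ?_ (hy i hio)
      rw [map_mul, map_mul, map_pow, map_pow, mul_comm]
      gcongr
  rw [map_mul, ht _ huo, one_mul] at h4
  exact absurd hcon (not_lt.2 h4)

theorem plc : S_plc := by
  intro k E Γ _ _ _ _ v ht
  classical
  let O := v.valuationSubring
  let κ := IsLocalRing.ResidueField O
  have hmem : ∀ a : E, a ∈ O ↔ v a ≤ 1 := fun a => Valuation.mem_valuationSubring_iff v a
  let f : k →+* O :=
    { toFun := fun c => ⟨algebraMap k E c, (hmem _).2 (ht.le c)⟩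
      map_one' := Subtype.ext (map_one _)
      map_mul' := fun a b => Subtype.ext (map_mul _ a b)
      map_zero' := Subtype.ext (map_zero _)
      map_add' := fun a b => Subtype.ext (map_add _ a b) }
  let r : O →+* κ := IsLocalRing.residue O
  let _ : Algebra k κ := (r.comp f).toAlgebra
  have h0 : ∀ a : O, r a = 0 ↔ v a < 1 := by
    intro a
    rw [IsLocalRing.residue_eq_zero_iff, IsLocalRing.mem_maximalIdeal, mem_nonunits_iff]
    rw [← not_iff_not, not_not, not_lt]
    constructor
    · intro hu
      obtain ⟨b, hb⟩ := hu.exists_right_inv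
      have h1 : v (a : E) * v (b : E) = 1 := by
        rw [← map_mul, ← map_one v]
        exact congrArg (fun z : O => v z) hb
      have h2 : v (b : E) ≤ 1 := (hmem _).1 b.2
      calc (1 : Γ) = v (a : E) * v (b : E) := h1.symm
        _ ≤ v (a : E) * 1 := by gcongr
        _ = v (a : E) := mul_one _
    · intro h1
      have h2 : v (a : E) = 1 := le_antisymm ((hmem _).1 a.2) h1
      have h3 : (a : E) ≠ 0 := by
        intro h
        rw [h, map_zero] at h2
        exact zero_ne_one h2
      refine ⟨⟨a, ⟨(a : E)⁻¹, (hmem _).2 (by rw [map_inv₀, h2, inv_one])⟩,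
        Subtype.ext (mul_inv_cancel₀ h3), Subtype.ext (inv_mul_cancel₀ h3)⟩, rfl⟩
  refine ⟨κ, inferInstance, inferInstance, fun a => if h : v a ≤ 1 then r ⟨a, (hmem a).2 h⟩ else 0,
    ⟨ht, ?_, ?_, ?_, ?_, ?_⟩⟩
  · intro a b ha hb
    have hab : v (a + b) ≤ 1 := (v.map_add a b).trans (max_le ha hb)
    simp only [dif_pos ha, dif_pos hb, dif_pos hab]
    rw [← map_add]
    rfl
  · intro a b ha hb
    have hab : v (a * b) ≤ 1 := by rw [map_mul]; exact mul_le_one' ha hb
    simp only [dif_pos ha, dif_pos hb, dif_pos hab]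
    rw [← map_mul]
    rfl
  · intro c
    simp only [dif_pos (ht.le c)]
    rfl
  · intro a ha
    simp only [dif_pos ha]
    exact h0 _
  · intro c
    obtain ⟨a, rfl⟩ := IsLocalRing.residue_surjective (R := O) c
    refine ⟨a, (hmem _).1 a.2, ?_⟩
    simp only [dif_pos ((hmem _).1 a.2)]
    rfl

theorem plb : S_plb := by
  intro k E Γ κ _ _ _ _ _ _ v ρ P J y hy
  have h1 : ∀ (I : Type) (y : I → E), (∀ j, v (y j) ≤ 1) → ∀ G : MvPolynomial I k,
      v (aeval y G) ≤ 1 ∧ ρ (aeval y G) = aeval (fun j => ρ (y j)) G := by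
    intro I y hy G
    induction G using MvPolynomial.induction_on with
    | C a =>
      rw [aeval_C, aeval_C]
      exact ⟨P.triv.le a, P.alg a⟩
    | add p q hp hq =>
      rw [map_add (aeval y), map_add (aeval fun j => ρ (y j))]
      refine ⟨(v.map_add _ _).trans (max_le hp.1 hq.1), ?_⟩
      rw [P.add _ _ hp.1 hq.1, hp.2, hq.2]
    | mul_X p i hp =>
      rw [map_mul (aeval y), map_mul (aeval fun j => ρ (y j)), aeval_X, aeval_X]
      refine ⟨by rw [map_mul]; exact mul_le_one' hp.1 (hy i), ?_⟩
      rw [P.mul _ _ hp.1 (hy i), hp.2]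
  refine ⟨h1 J y hy, fun s => ?_⟩
  have h2 := h1 s (fun j => y j) fun j => hy j
  constructor
  · intro hr
    rw [algebraicIndependent_iff]
    intro G hG
    by_contra hG0
    have h3 := h2 G
    rw [hG] at h3
    have h4 := (P.zero _ h3.1).1 h3.2
    exact absurd h4 (by rw [hr G hG0]; exact lt_irrefl _)
  · intro hi G hG0
    have h3 := h2 G
    refine le_antisymm h3.1 (not_lt.1 fun h4 => hG0 ?_)
    have h5 := (P.zero _ h3.1).2 h4
    rw [h3.2] at h5
    exact (algebraicIndependent_iff.1 hi) G h5

end Pool.Agent.Q64.RL
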