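import Pool.Agent.Q64.RL.Flt

/-!
Project RL: valuations of a purely transcendental field at a coordinate.
-/

set_option autoImplicit false

open Finset MvPolynomial WithZero

namespace Pool.Agent.Q64.RL

section

variable {k J : Type} [Field k] [DecidableEq J]

/-- put the variable `e` equal to 0 -/
noncomputable def kil (e : J) : MvPolynomial J k →ₐ[k] MvPolynomial ({j | j ≠ e} : Set J) k :=
  aeval fun j => if h : j ≠ e then X ⟨j, h⟩ else 0

/-- the polynomial without the variable `e` -/
noncomputable def inc (e : J) : MvPolynomial ({j | j ≠ e} : Set J) k →ₐ[k] MvPolynomial J k :=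
  rename Subtype.val

theorem dvd_sub_kil (e : J) (H : MvPolynomial J k) : (X e : MvPolynomial J k) ∣ H - inc e (kil e H) := by
  induction H using MvPolynomial.induction_on with
  | C a => simp [kil, inc]
  | add p q hp hq =>
    rw [map_add, map_add, add_sub_add_comm]
    exact dvd_add hp hq
  | mul_X p j hp =>
    rw [map_mul, map_mul]
    by_cases hj : j ≠ e
    · have h1 : inc e (kil e (X j : MvPolynomial J k)) = X j := by
        simp [kil, inc, hj]
      rw [h1, ← sub_mul]
      exact dvd_mul_of_dvd_left hp _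
    · rw [not_not] at hj
      subst hj
      have h1 : inc j (kil j (X j : MvPolynomial J k)) = 0 := by
        simp [kil, inc]
      rw [h1, mul_zero, sub_zero]
      exact dvd_mul_left _ _

variable {E : Type} [Field E] [Algebra k E] {v : Valuation E ℤᵐ⁰} {z : J → E} {e : J}

theorem val_le (ht : Triv k v) (hr : RInd k v z {j | j ≠ e}) (he : v (z e) < 1)
    (Q : MvPolynomial J k) : v (aeval z Q) ≤ 1 := by
  induction Q using MvPolynomial.induction_on with
  | C a => rw [aeval_C]; exact ht.le a
  | add p q hp hq =>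
    rw [map_add (aeval z)]
    exact (v.map_add _ _).trans (max_le hp hq)
  | mul_X p j hp =>
    rw [map_mul (aeval z), map_mul, aeval_X]
    refine mul_le_one' hp ?_
    by_cases hj : j = e
    · subst hj
      exact he.le
    · have := hr (X ⟨j, hj⟩) (X_ne_zero _)
      rw [aeval_X] at this
      exact this.le

theorem val_split {v : Valuation E ℤᵐ⁰} {z : J → E} {e : J} (hr : RInd k v z {j | j ≠ e})
    {H : MvPolynomial J k} (hH : ¬ (X e : MvPolynomial J k) ∣ H) :
    kil e H ≠ 0 ∧ v (aeval z (inc e (kil e H))) = 1 ∧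
      ∃ Q : MvPolynomial J k, aeval z H = aeval z (inc e (kil e H)) + z e * aeval z Q := by
  obtain ⟨Q, hQ⟩ := dvd_sub_kil e H
  have h0 : kil e H ≠ 0 := by
    intro h0
    apply hH
    rw [h0, map_zero, sub_zero] at hQ
    exact ⟨Q, hQ⟩
  refine ⟨h0, ?_, Q, ?_⟩
  · have h2 := hr (kil e H) h0
    rw [inc, aeval_rename]
    exact h2
  · have h1 : H = inc e (kil e H) + X e * Q := by rw [← hQ]; ring
    conv_lhs => rw [h1]
    rw [map_add (aeval z), map_mul (aeval z), aeval_X]

theorem val_one (ht : Triv k v) (hr : RInd k v z {j | j ≠ e}) (he : v (z e) < 1)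
    {H : MvPolynomial J k} (hH : ¬ (X e : MvPolynomial J k) ∣ H) : v (aeval z H) = 1 := by
  obtain ⟨-, h1, Q, hQ⟩ := val_split hr hH
  rw [hQ]
  have h2 : v (z e * aeval z Q) < v (aeval z (inc e (kil e H) : MvPolynomial J k)) := by
    rw [h1, map_mul]
    exact mul_lt_one_of_lt_of_le he (val_le ht hr he Q)
  rw [Valuation.map_add_eq_of_lt_left v h2, h1]

theorem exists_dec (e : J) {G : MvPolynomial J k} (hG : G ≠ 0) :
    ∃ (m : ℕ) (H : MvPolynomial J k), ¬ (X e : MvPolynomial J k) ∣ H ∧ G = X e ^ m * H := by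
  have hf : FiniteMultiplicity (X e : MvPolynomial J k) G := by
    apply FiniteMultiplicity.of_not_isUnit _ hG
    exact (MvPolynomial.X_prime (i := e)).not_isUnit
  obtain ⟨H, hH, h2⟩ := hf.exists_eq_pow_mul_and_not_dvd
  exact ⟨_, H, h2, hH⟩

theorem gdi : S_gdi := by
  intro k E J _ _ _ _ _ y e v ht h0 he hr
  rw [algebraicIndependent_iff]
  intro G hG
  by_contra hG0
  obtain ⟨m, H, hH, rfl⟩ := exists_dec e hG0
  rw [map_mul (aeval y), map_pow, aeval_X] at hG
  have h1 : aeval y H = 0 := by
    rcases mul_eq_zero.1 hG with h | h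
    · exact absurd h (pow_ne_zero _ h0)
    · exact h
  have h2 := val_one ht hr he hH
  rw [h1, map_zero] at h2
  exact zero_ne_one h2

theorem res : S_res := by
  intro k E J _ _ _ _ _ z e hz hgen v ht he hr
  classical
  have hze : z e ≠ 0 := hz.ne_zero e
  have hve : v (z e) ≠ 0 := (Valuation.ne_zero_iff v).2 hze
  have hne : ∀ G : MvPolynomial J k, G ≠ 0 → aeval z G ≠ 0 := fun G hG h =>
    hG ((algebraicIndependent_iff.1 hz) G h)
  have hrep : ∀ a : E, a ≠ 0 → ∃ (m n : ℕ) (H H' : MvPolynomial J k),
      ¬ (X e : MvPolynomial J k) ∣ H ∧ ¬ (X e : MvPolynomial J k) ∣ H' ∧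
      a = (z e ^ m * aeval z H) / (z e ^ n * aeval z H') := by
    intro a ha
    have h1 : a ∈ IntermediateField.adjoin k (Set.range z) := by rw [hgen]; trivial
    obtain ⟨r, s, rfl⟩ := (IntermediateField.mem_adjoin_range_iff k z a).1 h1
    have hr0 : r ≠ 0 := by
      rintro rfl
      simp at ha
    have hs0 : s ≠ 0 := by
      rintro rfl
      simp at ha
    obtain ⟨m, H, hH, rfl⟩ := exists_dec e hr0
    obtain ⟨n, H', hH', rfl⟩ := exists_dec e hs0
    refine ⟨m, n, H, H', hH, hH', ?_⟩
    simp only [map_mul, map_pow, aeval_X]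
  have hval : ∀ v : Valuation E ℤᵐ⁰, Triv k v → v (z e) < 1 → RInd k v z {j | j ≠ e} →
      ∀ (m n : ℕ) (H H' : MvPolynomial J k),
      ¬ (X e : MvPolynomial J k) ∣ H → ¬ (X e : MvPolynomial J k) ∣ H' →
      v ((z e ^ m * aeval z H) / (z e ^ n * aeval z H')) = v (z e) ^ ((m : ℤ) - n) := by
    intro v ht he hr m n H H' hH hH'
    have hve : v (z e) ≠ 0 := (Valuation.ne_zero_iff v).2 hze
    rw [map_div₀, map_mul, map_mul, map_pow, map_pow, val_one ht hr he hH,
      val_one ht hr he hH', mul_one, mul_one, zpow_sub₀ hve, zpow_natCast, zpow_natCast]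
  have hlog : v (z e) = exp (log (v (z e))) := (exp_log hve).symm
  have hlog0 : log (v (z e)) < 0 := by
    by_contra h
    rw [not_lt] at h
    rw [hlog] at he
    have h1 : exp (0 : ℤ) ≤ exp (log (v (z e))) := exp_le_exp.2 h
    rw [exp_zero] at h1
    exact absurd he (not_lt.2 h1)
  refine ⟨?_, ?_, ?_, ?_⟩
  · intro a ha
    obtain ⟨m, n, H, H', hH, hH', rfl⟩ := hrep a ha
    exact ⟨_, hval v ht he hr m n H H' hH hH'⟩
  · intro a ha
    rcases lt_or_eq_of_le ha with h1 | h1
    · exact ⟨0, zero_mem _, by rwa [sub_zero]⟩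
    · have ha0 : a ≠ 0 := by
        rintro rfl
        rw [map_zero] at h1
        exact zero_ne_one h1
      obtain ⟨m, n, H, H', hH, hH', rfl⟩ := hrep a ha0
      rw [hval v ht he hr m n H H' hH hH', hlog, ← exp_zsmul, exp_eq_one, smul_eq_mul,
        mul_eq_zero] at h1
      have hmn : m = n := by
        rcases h1 with h | h
        · omega
        · exact absurd h hlog0.ne
      subst hmn
      rw [mul_div_mul_left _ _ (pow_ne_zero _ hze)]
      obtain ⟨hk, hb, Q, hQ⟩ := val_split hr hH
      obtain ⟨hk', hb', Q', hQ'⟩ := val_split hr hH'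
      set b := aeval z (inc e (kil e H)) with hbd
      set b' := aeval z (inc e (kil e H')) with hbd'
      have hmem : ∀ P : MvPolynomial ({j | j ≠ e} : Set J) k, aeval z (inc e P) ∈
          IntermediateField.adjoin k (z '' {j | j ≠ e}) := by
        intro P
        rw [inc, aeval_rename]
        apply IntermediateField.algebra_adjoin_le_adjoin
        have : z '' {j | j ≠ e} = Set.range (z ∘ (Subtype.val : ({j | j ≠ e} : Set J) → J)) := by
          rw [Set.range_comp, Subtype.range_val]
        rw [this, Algebra.adjoin_range_eq_range_aeval]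
        exact ⟨P, rfl⟩
      refine ⟨b / b', div_mem (hmem _) (hmem _), ?_⟩
      have hH0 : aeval z H' ≠ 0 := by
        intro h
        have := val_one ht hr he hH'
        rw [h, map_zero] at this
        exact zero_ne_one this
      have hb0 : b' ≠ 0 := by
        intro h
        rw [h, map_zero] at hb'
        exact zero_ne_one hb'
      have h2 : aeval z H / aeval z H' - b / b'
          = z e * (aeval z Q * b' - b * aeval z Q') / (aeval z H' * b') := by
        rw [div_sub_div _ _ hH0 hb0, hQ, hQ']
        ring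
      rw [h2, map_div₀, map_mul, map_mul, val_one ht hr he hH', hb', mul_one, div_one]
      refine mul_lt_one_of_lt_of_le he ?_
      refine (v.map_sub _ _).trans (max_le ?_ ?_)
      · rw [map_mul, hb', mul_one]
        exact val_le ht hr he Q
      · rw [map_mul, hb, one_mul]
        exact val_le ht hr he Q'
  · intro hs
    obtain ⟨a, ha⟩ := hs (exp (-1))
    have ha0 : a ≠ 0 := by
      rintro rfl
      rw [map_zero] at ha
      exact exp_ne_zero ha.symm
    obtain ⟨m, n, H, H', hH, hH', rfl⟩ := hrep a ha0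
    rw [hval v ht he hr m n H H' hH hH', hlog, ← exp_zsmul, exp_inj, smul_eq_mul] at ha
    rw [hlog, exp_inj]
    have h1 : log (v (z e)) ∣ 1 := ⟨-((m : ℤ) - n), by linear_combination (1 : ℤ) * ha⟩
    rcases Int.isUnit_iff.1 (isUnit_of_dvd_one h1) with h | h
    · omega
    · exact h
  · intro v' ht' he' hr'
    have he1 : v' (z e) < 1 := by rw [he']; exact he
    ext a
    rcases eq_or_ne a 0 with rfl | ha
    · simp
    · obtain ⟨m, n, H, H', hH, hH', rfl⟩ := hrep a ha
      rw [hval v ht he hr m n H H' hH hH', hval v' ht' he1 hr' m n H H' hH hH', he']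

end

end Pool.Agent.Q64.RL
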