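import Pool.Agent.Q64.RL.Der

/-!
Project RL: generic points and points.
-/

set_option autoImplicit false

open Finset MvPolynomial

namespace Pool.Agent.Q64.RL

theorem spe : S_perp → S_bas → S_coo → S_zfa → S_spe := by
  intro hperp hbas hcoo hzfa k ι E _ _ _ _ _ _ L o x w hnl hG
  classical
  obtain ⟨B, hB, hoB⟩ := (hbas k ι L o (not_loop hG)).1
  obtain ⟨c, hc⟩ := hcoo k ι L B hB
  obtain ⟨hz, hgen⟩ := hzfa k ι E L B o x w hB hoB hG
  let σ := {i // i ≠ o}
  let pB : ι → MvPolynomial σ k := fun j => if h : j ≠ o then X ⟨j, h⟩ else 1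
  let p : ι → MvPolynomial σ k := fun i => if i ∈ B then pB i else ∑ j ∈ B, C (c i j) * pB j
  let qB : ι → MvPolynomial σ k := fun j => if h : j ≠ o then X ⟨j, h⟩ else 0
  let q : ι → MvPolynomial σ k := fun i => if i ∈ B then - ∑ j ∈ Bᶜ, C (c j i) * qB j else qB i
  have hxc := ((hc E x w).1).1 hG.hx
  have hwc := ((hc E x w).2).1 hG.hw
  let z : σ → E := fun i => zf B x w i
  have hpBz : ∀ j ∈ B, aeval z (pB j) = x j := by
    intro j hj
    by_cases h : j = o
    · subst h
      simp [pB, hG.xo]
    · simp [pB, z, zf, h, hj]
  have hpz : ∀ i, aeval z (p i) = x i := by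
    intro i
    by_cases hi : i ∈ B
    · simp only [p, if_pos hi]
      exact hpBz i hi
    · simp only [p, if_neg hi]
      rw [map_sum, hxc i hi]
      refine Finset.sum_congr rfl fun j hj => ?_
      rw [map_mul, aeval_C, hpBz j hj]
  have hqBz : ∀ j ∉ B, aeval z (qB j) = w j := by
    intro j hj
    have h : j ≠ o := by
      rintro rfl
      exact hj hoB
    simp [qB, z, zf, h, hj]
  have hqz : ∀ i, aeval z (q i) = w i := by
    intro i
    by_cases hi : i ∈ B
    · simp only [q, if_pos hi]
      rw [map_neg, map_sum, hwc i hi]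
      congr 1
      refine Finset.sum_congr rfl fun j hj => ?_
      rw [map_mul, aeval_C, hqBz j (Finset.mem_compl.1 hj)]
    · simp only [q, if_neg hi]
      exact hqBz i hi
  -- evaluation at a point
  have hev : ∀ a b : ι → k, InL L a → InP L b → a o ≠ 0 →
      ∀ i, eval (fun i : σ => if (i : ι) ∈ B then a i / a o else a o ^ 2 * b i) (p i)
        = a i / a o ∧
      eval (fun i : σ => if (i : ι) ∈ B then a i / a o else a o ^ 2 * b i) (q i)
        = a o ^ 2 * b i := by
    intro a b ha hb hao i
    have hac := ((hc k a b).1).1 ha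
    have hbc := ((hc k a b).2).1 hb
    have h1 : ∀ j ∈ B, eval (fun i : σ => if (i : ι) ∈ B then a i / a o else a o ^ 2 * b i)
        (pB j) = a j / a o := by
      intro j hj
      by_cases h : j = o
      · subst h
        simp [pB, hao]
      · simp [pB, h, hj]
    have h2 : ∀ j ∉ B, eval (fun i : σ => if (i : ι) ∈ B then a i / a o else a o ^ 2 * b i)
        (qB j) = a o ^ 2 * b j := by
      intro j hj
      have h : j ≠ o := by
        rintro rfl
        exact hj hoB
      simp [qB, h, hj]
    by_cases hi : i ∈ B
    · simp only [p, q, if_pos hi]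
      refine ⟨h1 i hi, ?_⟩
      rw [map_neg, map_sum, hbc i hi, mul_neg, Finset.mul_sum]
      congr 1
      refine Finset.sum_congr rfl fun j hj => ?_
      rw [map_mul, eval_C, h2 j (Finset.mem_compl.1 hj)]
      simp only [Algebra.algebraMap_self, RingHom.id_apply]
      ring
    · simp only [p, q, if_neg hi]
      refine ⟨?_, h2 i hi⟩
      rw [map_sum, hac i hi, Finset.sum_div]
      refine Finset.sum_congr rfl fun j hj => ?_
      rw [map_mul, eval_C, h1 j hj]
      simp only [Algebra.algebraMap_self, RingHom.id_apply]
      ring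
  have hLin : ∀ a ∈ L, InL L a := by
    intro a ha r hr
    have := hr a ha
    simp only [Algebra.algebraMap_self, RingHom.id_apply]
    rw [← this]
    exact Finset.sum_congr rfl fun i _ => mul_comm _ _
  have hpne : ∀ i, p i ≠ 0 := by
    intro i h0
    obtain ⟨u, hu, hui⟩ := hnl i
    obtain ⟨u', hu', huo⟩ := hnl o
    obtain ⟨a, ha, hai, hao⟩ : ∃ a ∈ L, a i ≠ 0 ∧ a o ≠ 0 := by
      by_cases h1 : u o = 0
      · by_cases h2 : u' i = 0
        · exact ⟨u + u', L.add_mem hu hu', by simpa [h2] using hui, by simpa [h1] using huo⟩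
        · exact ⟨u', hu', h2, huo⟩
      · exact ⟨u, hu, hui, h1⟩
    have h1 := (hev a 0 (hLin a ha) (by intro v _; simp) hao i).1
    rw [h0, map_zero] at h1
    exact (div_ne_zero hai hao) h1.symm
  have hxne : ∀ i, x i ≠ 0 := by
    intro i h0
    rw [← hpz i] at h0
    exact hpne i ((algebraicIndependent_iff.1 hz) _ h0)
  refine ⟨hxne, fun G => ?_⟩
  let g : MvPolynomial σ k := aeval (fun i => p i ^ 2 * q i) G
  have hg : aeval z g = aeval (fun i => x i ^ 2 * w i) G := by
    have h1 : ((aeval z).comp (aeval fun i => p i ^ 2 * q i) : MvPolynomial ι k →ₐ[k] E)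
        = aeval (fun i => x i ^ 2 * w i) := by
      apply MvPolynomial.algHom_ext
      intro i
      simp [hpz, hqz]
    exact DFunLike.congr_fun h1 G
  have hge : ∀ t : σ → k, eval t g = eval (fun i => eval t (p i) ^ 2 * eval t (q i)) G := by
    intro t
    have h1 : ((aeval t).comp (aeval fun i => p i ^ 2 * q i) : MvPolynomial ι k →ₐ[k] k)
        = aeval (fun i => eval t (p i) ^ 2 * eval t (q i)) := by
      apply MvPolynomial.algHom_ext
      intro i
      simp [MvPolynomial.aeval_eq_eval]
    have h2 := DFunLike.congr_fun h1 G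
    simpa [MvPolynomial.aeval_eq_eval, g] using h2
  have hg0 : aeval (fun i => x i ^ 2 * w i) G = 0 ↔ g = 0 := by
    rw [← hg]
    constructor
    · intro h
      exact (algebraicIndependent_iff.1 hz) _ h
    · intro h
      rw [h, map_zero]
  rw [hg0]
  constructor
  · intro h a ha hane b hb
    have hb' : InP L b := by
      intro v hv
      simpa using hb v hv
    have h1 := hge (fun i : σ => if (i : ι) ∈ B then a i / a o else a o ^ 2 * b i)
    rw [h, map_zero] at h1
    rw [h1]
    congr 1
    refine congrArg eval (funext fun i => ?_)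
    obtain ⟨e1, e2⟩ := hev a b (hLin a ha) hb' (hane o) i
    rw [e1, e2]
    have := hane o
    field_simp
  · intro h
    have h1 : g * ∏ i, p i = 0 := by
      apply MvPolynomial.funext
      intro t
      rw [map_mul, map_zero, map_prod]
      by_cases h2 : ∏ i, eval t (p i) = 0
      · rw [h2, mul_zero]
      · have h3 : ∀ i, eval t (p i) ≠ 0 := fun i hi =>
          h2 (Finset.prod_eq_zero (mem_univ i) hi)
        rw [hge t, h (fun i => eval t (p i)) ?_ h3 (fun i => eval t (q i)) ?_, zero_mul]
        · -- in L
          have h4 : InL L (fun i => eval t (p i)) := by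
            refine ((hc k _ (0 : ι → k)).1).2 ?_
            intro j hj
            simp only [p, if_neg hj]
            rw [map_sum]
            refine Finset.sum_congr rfl fun i hi => ?_
            rw [if_pos hi, map_mul, eval_C]
            rfl
          apply (hperp k ι L).1
          intro r hr
          have := h4 r hr
          rw [← this]
          exact Finset.sum_congr rfl fun i _ => mul_comm _ _
        · -- orthogonal
          have h4 : InP L (fun i => eval t (q i)) := by
            refine ((hc k (0 : ι → k) _).2).2 ?_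
            intro i hi
            simp only [q, if_pos hi]
            rw [map_neg, map_sum]
            congr 1
            refine Finset.sum_congr rfl fun j hj => ?_
            rw [if_neg (Finset.mem_compl.1 hj), map_mul, eval_C]
            rfl
          intro v hv
          exact h4 v hv
    rcases mul_eq_zero.1 h1 with h2 | h2
    · exact h2
    · obtain ⟨i, -, hi⟩ := Finset.prod_eq_zero_iff.1 h2
      exact absurd hi (hpne i)

end Pool.Agent.Q64.RL
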