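import Pool.Agent.Q64.RL.Stm

/-!
Project RL: transcendence degree.
-/

set_option autoImplicit false

open Finset MvPolynomial Cardinal

namespace Pool.Agent.Q64.RL

theorem alg_of_top {k E : Type} [Field k] [Field E] [Algebra k E] {s : Set E}
    (hs : IntermediateField.adjoin k s = ⊤) : Algebra.IsAlgebraic (Algebra.adjoin k s) E := by
  constructor
  intro a
  have ha : a ∈ IntermediateField.adjoin k s := by rw [hs]; trivial
  obtain ⟨r, hr, t, ht, rfl⟩ := IntermediateField.mem_adjoin_iff_div.1 ha
  rcases eq_or_ne t 0 with rfl | ht0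
  · rw [div_zero]
    exact isAlgebraic_zero
  · refine ⟨Polynomial.C (⟨t, ht⟩ : Algebra.adjoin k s) * Polynomial.X
      - Polynomial.C ⟨r, hr⟩, ?_, ?_⟩
    · intro h
      have := congrArg (fun p => Polynomial.coeff p 1) h
      simp at this
      exact ht0 (congrArg Subtype.val this)
    · simp only [map_sub, map_mul, Polynomial.aeval_C, Polynomial.aeval_X]
      change t * (r / t) - r = 0
      rw [mul_div_cancel₀ _ ht0, sub_self]

theorem trd : S_trd := by
  intro k E _ _ _ J J' _ _ s t hs ht
  have halg := alg_of_top hs
  have h1 : Algebra.trdeg k E ≤ #(Set.range s) := Algebra.IsAlgebraic.trdeg_le_cardinalMk k _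
  have h2 : #(Set.range s) ≤ #J := mk_range_le
  have h3 : #J' ≤ Algebra.trdeg k E := ht.cardinalMk_le_trdeg
  have h4 : #J' ≤ #J := h3.trans (h1.trans h2)
  rw [mk_fintype, mk_fintype] at h4
  have h5 : Fintype.card J' ≤ Fintype.card J := by exact_mod_cast h4
  refine ⟨h5, fun h6 => ⟨?_, ?_⟩⟩
  · have h7 : #J ≤ Algebra.trdeg k E := by
      rw [mk_fintype, ← h6, ← mk_fintype]
      exact h3
    exact (Algebra.IsAlgebraic.isTranscendenceBasis_of_le_trdeg_of_finite k s h7).1
  · have h7 : Algebra.trdeg k E ≤ #J' := by
      rw [mk_fintype, h6, ← mk_fintype]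
      exact h1.trans h2
    have h8 := ht.isTranscendenceBasis_of_trdeg_le_of_finite h7
    have h9 := h8.isAlgebraic_field
    let K := IntermediateField.adjoin k (Set.range t)
    have h10 : FiniteDimensional K (IntermediateField.adjoin K (Set.range s)) :=
      IntermediateField.finiteDimensional_adjoin fun x _ => (h9.isAlgebraic x).isIntegral
    have h11 : IntermediateField.adjoin K (Set.range s) = ⊤ := by
      rw [eq_top_iff]
      intro a _
      have ha : a ∈ IntermediateField.adjoin k (Set.range s) := by rw [hs]; trivial
      have h12 : IntermediateField.adjoin k (Set.range s)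
          ≤ (IntermediateField.adjoin K (Set.range s)).restrictScalars k :=
        IntermediateField.adjoin_le_iff.2 (IntermediateField.subset_adjoin _ _)
      exact h12 ha
    rw [h11] at h10
    exact Module.Finite.equiv (IntermediateField.topEquiv (F := K) (E := E)).toLinearEquiv

end Pool.Agent.Q64.RL
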